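import Mathlib

/-!
Mahler measure and absolute logarithmic height of an algebraic complex number.
-/

namespace Pool.Agent.H334R2

open Polynomial

/-- The minimal polynomial of `z` over the integers: the primitive integer polynomial
proportional to `minpoly ℚ z` (normalised up to sign). -/
noncomputable def intMinpoly (z : ℂ) : ℤ[X] :=
  (IsLocalization.integerNormalization (nonZeroDivisors ℤ) (minpoly ℚ z)).primPart

/-- The Mahler measure `M(z) = |a₀| ∏ max (1, |z_j|)`, the product being over the complex roots of
the minimal polynomial `a₀ ∏ (X - z_j)` of `z` over `ℤ`. -/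
noncomputable def mahlerM (z : ℂ) : ℝ :=
  |((intMinpoly z).leadingCoeff : ℝ)| *
    (((intMinpoly z).map (Int.castRingHom ℂ)).roots.map fun w => max 1 ‖w‖).prod

/-- The absolute logarithmic height `h(z) = (1/d) log M(z)`, `d` the degree of `z`. -/
noncomputable def absLogHeight (z : ℂ) : ℝ :=
  Real.log (mahlerM z) / (minpoly ℚ z).natDegree

end Pool.Agent.H334R2
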