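import Mathlib
import Pool.Agent.H334R2.HeightDef

namespace Pool.Agent.H334R2

/-- the embedding of a subfield of `ℂ`, for the canonical rational algebra structure. -/
noncomputable def phi (L : IntermediateField ℚ ℂ) :
    @AlgHom ℚ L ℂ _ _ _ (DivisionRing.toRatAlgebra) _ :=
  @RingHom.toRatAlgHom L ℂ _ _ (DivisionRing.toRatAlgebra) _ L.val.toRingHom

lemma phi_apply (L : IntermediateField ℚ ℂ) (x : L) : phi L x = x := rfl

lemma nf (L : IntermediateField ℚ ℂ) [FiniteDimensional ℚ L] : NumberField L := by
  refine @NumberField.mk _ _ inferInstance ?_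
  have : (L.algebra' : Algebra ℚ L) = DivisionRing.toRatAlgebra := Subsingleton.elim _ _
  rw [← this]
  infer_instance

lemma finrank_eq (L : IntermediateField ℚ ℂ) : Module.finrank ℚ L =
    @Module.finrank ℚ L _ _ (@Algebra.toModule ℚ L _ _ DivisionRing.toRatAlgebra) := by
  have h : (L.algebra' : Algebra ℚ L) = DivisionRing.toRatAlgebra := Subsingleton.elim _ _
  rw [← h]

end Pool.Agent.H334R2
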