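import Mathlib

namespace Pool.Agent.H334R2

open MvPolynomial

/-- index set of the variables: `inl i` is `X_i`, `inr i` is `Y_i`. -/
abbrev Vars (n : ℕ) := Fin n ⊕ Fin n

/-- the derivation `∂/∂X_i + Y_i ∂/∂Y_i`. -/
noncomputable def D {n : ℕ} (i : Fin n) :
    Derivation ℤ (MvPolynomial (Vars n) ℤ) (MvPolynomial (Vars n) ℤ) :=
  pderiv (Sum.inl i) + (X (Sum.inr i) : MvPolynomial (Vars n) ℤ) • pderiv (Sum.inr i)

lemma D_apply {n : ℕ} (i : Fin n) (P : MvPolynomial (Vars n) ℤ) :
    D i P = pderiv (Sum.inl i) P + X (Sum.inr i) * pderiv (Sum.inr i) P := rfl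

lemma coeff_D {n : ℕ} (i : Fin n) (P : MvPolynomial (Vars n) ℤ) (s : Vars n →₀ ℕ) :
    coeff s (D i P) = ((s (Sum.inl i) : ℤ) + 1) * coeff (s + Finsupp.single (Sum.inl i) 1) P +
      (s (Sum.inr i) : ℤ) * coeff s P := by
  rw [D_apply, coeff_add, coeff_pderiv, coeff_X_mul']
  congr 1
  · push_cast; ring
  · split_ifs with h
    · rw [coeff_pderiv]
      have h1 : s - Finsupp.single (Sum.inr i) 1 + Finsupp.single (Sum.inr i) 1 = s := by
        ext j
        simp only [Finsupp.coe_add, Finsupp.coe_tsub, Pi.add_apply, Pi.sub_apply]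
        by_cases hj : j = Sum.inr i
        · subst hj
          simp only [Finsupp.single_eq_same]
          have : s (Sum.inr i) ≠ 0 := by simpa using h
          omega
        · simp [Finsupp.single_apply, Ne.symm hj]
      rw [h1]
      have hne : s (Sum.inr i) ≠ 0 := by simpa using h
      have h2 : (((s - Finsupp.single (Sum.inr i) 1 : Vars n →₀ ℕ) (Sum.inr i) : ℕ) : ℤ) + 1 =
          (s (Sum.inr i) : ℤ) := by
        have h3 : (s - Finsupp.single (Sum.inr i) 1 : Vars n →₀ ℕ) (Sum.inr i) =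
            s (Sum.inr i) - 1 := by simp
        rw [h3]
        omega
      rw [h2]
      ring
    · have : s (Sum.inr i) = 0 := by simpa using h
      rw [this]; simp

/-- all exponents `< e`, all coefficients at most `T` in absolute value. -/
def InBox {n : ℕ} (e T : ℕ) (P : MvPolynomial (Vars n) ℤ) : Prop :=
  (∀ s, coeff s P ≠ 0 → ∀ j, s j < e) ∧ ∀ s, |coeff s P| ≤ (T : ℤ)

lemma InBox.mono {n : ℕ} {e e' T T' : ℕ} {P : MvPolynomial (Vars n) ℤ} (h : InBox e T P)
    (he : e ≤ e') (hT : T ≤ T') : InBox e' T' P :=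
  ⟨fun s hs j => (h.1 s hs j).trans_le he, fun s => (h.2 s).trans (by exact_mod_cast hT)⟩

lemma InBox.D {n : ℕ} {δ T : ℕ} {P : MvPolynomial (Vars n) ℤ} (h : InBox (δ + 1) T P) (i : Fin n) :
    InBox (δ + 1) (2 * δ * T) (D i P) := by
  constructor
  · intro s hs j
    rw [coeff_D] at hs
    by_cases h1 : coeff s P = 0
    · rw [h1] at hs
      have h2 : coeff (s + Finsupp.single (Sum.inl i) 1) P ≠ 0 := by
        intro h0; rw [h0] at hs; simp at hs
      have h3 := h.1 _ h2 j
      simp only [Finsupp.coe_add, Pi.add_apply] at h3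
      omega
    · exact h.1 s h1 j
  · intro s
    rw [coeff_D]
    have h1 : |((s (Sum.inl i) : ℤ) + 1) * coeff (s + Finsupp.single (Sum.inl i) 1) P| ≤ δ * T := by
      by_cases h0 : coeff (s + Finsupp.single (Sum.inl i) 1) P = 0
      · rw [h0]; simp; positivity
      · have h3 := h.1 _ h0 (Sum.inl i)
        simp only [Finsupp.coe_add, Pi.add_apply, Finsupp.single_eq_same] at h3
        rw [abs_mul]
        refine mul_le_mul ?_ (h.2 _) (abs_nonneg _) (by positivity)
        rw [abs_of_nonneg (by positivity)]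
        have : s (Sum.inl i) + 1 ≤ δ := by omega
        exact_mod_cast this
    have h2 : |(s (Sum.inr i) : ℤ) * coeff s P| ≤ δ * T := by
      by_cases h0 : coeff s P = 0
      · rw [h0]; simp; positivity
      · have h3 := h.1 _ h0 (Sum.inr i)
        rw [abs_mul]
        refine mul_le_mul ?_ (h.2 _) (abs_nonneg _) (by positivity)
        rw [abs_of_nonneg (by positivity)]
        have : s (Sum.inr i) ≤ δ := by omega
        exact_mod_cast this
    calc _ ≤ |((s (Sum.inl i) : ℤ) + 1) * coeff (s + Finsupp.single (Sum.inl i) 1) P| +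
          |(s (Sum.inr i) : ℤ) * coeff s P| := abs_add_le _ _
      _ ≤ δ * T + δ * T := add_le_add h1 h2
      _ = ((2 * δ * T : ℕ) : ℤ) := by push_cast; ring

/-- exponent vector from a function to `Fin e`. -/
noncomputable def expo {n e : ℕ} (s : Vars n → Fin e) : Vars n →₀ ℕ :=
  Finsupp.equivFunOnFinite.symm fun j => (s j : ℕ)

lemma expo_apply {n e : ℕ} (s : Vars n → Fin e) (j : Vars n) : expo s j = (s j : ℕ) := rfl

lemma expo_injective {n e : ℕ} : Function.Injective (expo (n := n) (e := e)) := by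
  intro s t h
  funext j
  have := congrArg (fun f => f j) h
  simp only [expo_apply] at this
  exact Fin.ext this

/-- the polynomial with given coefficients in the box. -/
noncomputable def toPoly {n e : ℕ} (c : (Vars n → Fin e) → ℤ) : MvPolynomial (Vars n) ℤ :=
  ∑ s, monomial (expo s) (c s)

lemma coeff_toPoly {n e : ℕ} (c : (Vars n → Fin e) → ℤ) (s : Vars n → Fin e) :
    coeff (expo s) (toPoly c) = c s := by
  classical
  rw [toPoly, coeff_sum]
  simp only [coeff_monomial]
  rw [Finset.sum_eq_single s]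
  · simp
  · intro b _ hb
    rw [if_neg]
    exact fun h => hb (expo_injective h)
  · intro h; exact absurd (Finset.mem_univ _) h

lemma coeff_toPoly_ne {n e : ℕ} (c : (Vars n → Fin e) → ℤ) (m : Vars n →₀ ℕ)
    (hm : coeff m (toPoly c) ≠ 0) : ∃ s : Vars n → Fin e, m = expo s := by
  classical
  by_contra hcon
  push Not at hcon
  apply hm
  rw [toPoly, coeff_sum]
  refine Finset.sum_eq_zero fun s _ => ?_
  rw [coeff_monomial, if_neg]
  exact fun h => hcon s h.symm

lemma toPoly_inBox {n e T : ℕ} (c : (Vars n → Fin e) → ℤ) (hc : ∀ s, |c s| ≤ (T : ℤ)) :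
    InBox e T (toPoly c) := by
  constructor
  · intro m hm j
    obtain ⟨s, rfl⟩ := coeff_toPoly_ne c m hm
    rw [expo_apply]; exact (s j).2
  · intro m
    by_cases hm : coeff m (toPoly c) = 0
    · rw [hm]; simp
    · obtain ⟨s, rfl⟩ := coeff_toPoly_ne c m hm
      rw [coeff_toPoly]; exact hc s

lemma eq_toPoly {n e T : ℕ} {P : MvPolynomial (Vars n) ℤ} (h : InBox e T P) :
    P = toPoly (fun s : Vars n → Fin e => coeff (expo s) P) := by
  ext m
  by_cases hm : ∃ s : Vars n → Fin e, m = expo s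
  · obtain ⟨s, rfl⟩ := hm
    rw [coeff_toPoly]
  · have h1 : coeff m P = 0 := by
      by_contra h0
      apply hm
      refine ⟨fun j => ⟨m j, h.1 m h0 j⟩, ?_⟩
      ext j
      rw [expo_apply]
    have h2 : coeff m (toPoly fun s : Vars n → Fin e => coeff (expo s) P) = 0 := by
      by_contra h0
      exact hm (coeff_toPoly_ne _ m h0)
    rw [h1, h2]

lemma toPoly_sub {n e : ℕ} (c c' : (Vars n → Fin e) → ℤ) :
    toPoly c - toPoly c' = toPoly (fun s => c s - c' s) := by
  simp only [toPoly, ← Finset.sum_sub_distrib, map_sub]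

lemma InBox.eq_of_coeff {n e T T' : ℕ} {P Q : MvPolynomial (Vars n) ℤ} (h : InBox e T P)
    (h' : InBox e T' Q) (hPQ : ∀ s : Vars n → Fin e, coeff (expo s) P = coeff (expo s) Q) :
    P = Q := by
  rw [eq_toPoly h, eq_toPoly h']
  congr 1
  funext s
  exact hPQ s

lemma card_support_le {n e T : ℕ} {P : MvPolynomial (Vars n) ℤ} (h : InBox e T P) :
    P.support.card ≤ e ^ (2 * n) := by
  classical
  have h1 : P.support ⊆ (Finset.univ : Finset (Vars n → Fin e)).image expo := by
    intro m hm
    rw [mem_support_iff] at hm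
    rw [Finset.mem_image]
    refine ⟨fun j => ⟨m j, h.1 m hm j⟩, Finset.mem_univ _, ?_⟩
    ext j
    rw [expo_apply]
  refine (Finset.card_le_card h1).trans (Finset.card_image_le.trans ?_)
  rw [Finset.card_univ, Fintype.card_fun, Fintype.card_fin, Fintype.card_sum, Fintype.card_fin,
    two_mul]

lemma InBox.mul {n e e' T T' : ℕ} {P Q : MvPolynomial (Vars n) ℤ} (h : InBox (e + 1) T P)
    (h' : InBox e' T' Q) : InBox (e + e') (e' ^ (2 * n) * (T * T')) (P * Q) := by
  constructor
  · intro s hs j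
    rw [coeff_mul] at hs
    obtain ⟨⟨a, b⟩, hab, hne⟩ := Finset.exists_ne_zero_of_sum_ne_zero hs
    rw [Finset.HasAntidiagonal.mem_antidiagonal] at hab
    have h1 := h.1 a (left_ne_zero_of_mul hne) j
    have h2 := h'.1 b (right_ne_zero_of_mul hne) j
    rw [← hab]
    simp only [Finsupp.coe_add, Pi.add_apply]
    omega
  · intro s
    have h1 : P * Q = ∑ b ∈ Q.support, P * monomial b (coeff b Q) := by
      conv_lhs => rw [Q.as_sum]
      rw [Finset.mul_sum]
    rw [h1, coeff_sum]
    refine (Finset.abs_sum_le_sum_abs _ _).trans ?_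
    have h2 : ∀ b ∈ Q.support, |coeff s (P * monomial b (coeff b Q))| ≤ (T * T' : ℤ) := by
      intro b _
      rw [coeff_mul_monomial']
      split_ifs
      · rw [abs_mul]
        exact mul_le_mul (h.2 _) (h'.2 _) (abs_nonneg _) (by positivity)
      · simp; positivity
    refine (Finset.sum_le_sum h2).trans ?_
    rw [Finset.sum_const, nsmul_eq_mul]
    have h3 := card_support_le h'
    have h4 : (Q.support.card : ℤ) ≤ (e' ^ (2 * n) : ℕ) := by exact_mod_cast h3
    calc (Q.support.card : ℤ) * (T * T') ≤ ((e' ^ (2 * n) : ℕ) : ℤ) * (T * T') :=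
          mul_le_mul_of_nonneg_right h4 (by positivity)
      _ = _ := by push_cast; ring

lemma InBox.sum {n e : ℕ} {κ : Type*} (S : Finset κ) (T : κ → ℕ)
    (P : κ → MvPolynomial (Vars n) ℤ) (h : ∀ k ∈ S, InBox e (T k) (P k)) :
    InBox e (∑ k ∈ S, T k) (∑ k ∈ S, P k) := by
  constructor
  · intro s hs j
    rw [coeff_sum] at hs
    obtain ⟨k, hk, hne⟩ := Finset.exists_ne_zero_of_sum_ne_zero hs
    exact (h k hk).1 s hne j
  · intro s
    rw [coeff_sum]
    refine (Finset.abs_sum_le_sum_abs _ _).trans ?_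
    push_cast
    exact Finset.sum_le_sum fun k hk => (h k hk).2 s

end Pool.Agent.H334R2
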