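import Mathlib

namespace Pool.Agent.H334R2

open Polynomial

/-- leading coefficient times a root is integral, for a complex polynomial with integral coefs. -/
lemma isIntegral_leadingCoeff_mul_root {g : ℂ[X]} {r : ℂ} (hint : ∀ i, IsIntegral ℤ (g.coeff i))
    (hr : g.eval r = 0) : IsIntegral ℤ (g.leadingCoeff * r) := by
  have hlift : g ∈ Polynomial.lifts (algebraMap (integralClosure ℤ ℂ) ℂ) := by
    rw [Polynomial.lifts_iff_coeff_lifts]
    intro n
    exact ⟨⟨g.coeff n, hint n⟩, rfl⟩
  obtain ⟨p, hp, hdeg⟩ := Polynomial.exists_degree_eq_of_mem_lifts hlift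
  have h1 : aeval r p = 0 := by
    rw [← eval_map_algebraMap, hp, hr]
  have h2 := isIntegral_leadingCoeff_smul p r h1
  have h3 : IsIntegral ℤ (p.leadingCoeff • r) := isIntegral_trans (A := integralClosure ℤ ℂ) _ h2
  have h4 : g.leadingCoeff = algebraMap (integralClosure ℤ ℂ) ℂ p.leadingCoeff := by
    have hnd : g.natDegree = p.natDegree := by
      rw [natDegree, natDegree, hdeg]
    rw [leadingCoeff, leadingCoeff, hnd, ← hp, coeff_map]
  rw [h4]
  simpa [Algebra.smul_def] using h3

/-- dividing by a linear factor keeps the coefficients integral. -/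
lemma coeff_isIntegral_of_linear_mul (r : ℂ) : ∀ (m : ℕ) (h : ℂ[X]), h.natDegree ≤ m →
    (∀ i, IsIntegral ℤ (((X - C r) * h).coeff i)) → ∀ i, IsIntegral ℤ (h.coeff i) := by
  intro m
  induction m with
  | zero =>
    intro h hdeg hint i
    have hh : h = C (h.coeff 0) := eq_C_of_natDegree_le_zero hdeg
    have h1 := hint 1
    rw [hh] at h1 ⊢
    have h2 : ((X - C r) * C (h.coeff 0)).coeff 1 = h.coeff 0 := by
      rw [coeff_mul_C]; simp
    rw [h2] at h1
    rcases i with _ | i
    · simpa using h1
    · simpa [coeff_C] using isIntegral_zero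
  | succ m ih =>
    intro h hdeg hint i
    -- leading coefficient
    by_cases hh0 : h.coeff (m+1) = 0
    · have hdeg' : h.natDegree ≤ m := by
        by_contra hcon
        have : h.natDegree = m + 1 := by omega
        have h3 : h.leadingCoeff = 0 := by rw [leadingCoeff, this, hh0]
        rw [leadingCoeff_eq_zero] at h3
        subst h3
        simp at this
      exact ih h hdeg' hint i
    · set a := h.coeff (m+1) with ha
      have hnd : h.natDegree = m + 1 := le_antisymm hdeg (le_natDegree_of_ne_zero hh0)
      have hlc : h.leadingCoeff = a := by rw [leadingCoeff, hnd]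
      have hlc2 : ((X - C r) * h).leadingCoeff = a := by
        rw [leadingCoeff_mul, leadingCoeff_X_sub_C, one_mul, hlc]
      have haint : IsIntegral ℤ a := by
        rw [← hlc2]; exact hint _
      have har : IsIntegral ℤ (a * r) := by
        rw [← hlc2]
        exact isIntegral_leadingCoeff_mul_root hint (by simp)
      set h1 := h - C a * X ^ (m+1) with hh1
      have hdeg1 : h1.natDegree ≤ m := by
        rw [natDegree_le_iff_coeff_eq_zero]
        intro N hN
        rw [hh1, coeff_sub, coeff_C_mul_X_pow]
        split_ifs with hif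
        · rw [hif]; simp [ha]
        · rw [coeff_eq_zero_of_natDegree_lt (by omega)]; simp
      have hint1 : ∀ i, IsIntegral ℤ (((X - C r) * h1).coeff i) := by
        intro i
        have : (X - C r) * h1 = (X - C r) * h - C a * X ^ (m+2) + C (a * r) * X ^ (m+1) := by
          rw [hh1, C_mul]; ring
        rw [this, coeff_add, coeff_sub, coeff_C_mul_X_pow, coeff_C_mul_X_pow]
        refine IsIntegral.add (IsIntegral.sub (hint i) ?_) ?_
        · split_ifs
          · exact haint
          · exact isIntegral_zero
        · split_ifs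
          · exact har
          · exact isIntegral_zero
      have := ih h1 hdeg1 hint1 i
      have h5 : h.coeff i = h1.coeff i + (C a * X ^ (m+1)).coeff i := by
        rw [hh1, coeff_sub]; ring
      rw [h5, coeff_C_mul_X_pow]
      refine IsIntegral.add this ?_
      split_ifs
      · exact haint
      · exact isIntegral_zero

/-- B1: if `A ∏ (X - r_σ)` has integral coefficients, then `A ∏_{σ ∈ S} r_σ` is integral. -/
lemma isIntegral_mul_prod_subset {ι : Type*} [DecidableEq ι] (A : ℂ) (r : ι → ℂ) (U S : Finset ι)
    (hSU : S ⊆ U) (hint : ∀ i, IsIntegral ℤ ((C A * ∏ σ ∈ U, (X - C (r σ))).coeff i)) :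
    IsIntegral ℤ (A * ∏ σ ∈ S, r σ) := by
  -- remove roots outside S
  have key : ∀ T : Finset ι, Disjoint S T →
      (∀ i, IsIntegral ℤ ((C A * ∏ σ ∈ S ∪ T, (X - C (r σ))).coeff i)) →
      (∀ i, IsIntegral ℤ ((C A * ∏ σ ∈ S, (X - C (r σ))).coeff i)) := by
    intro T
    induction T using Finset.induction_on with
    | empty => intro _ h; simpa using h
    | insert a T ha ih =>
      intro hd h
      have hd' : Disjoint S T := by
        refine Finset.disjoint_of_subset_right (Finset.subset_insert _ _) hd
      refine ih hd' ?_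
      have haS : a ∉ S ∪ T := by
        rw [Finset.mem_union, not_or]
        refine ⟨?_, ha⟩
        intro haS
        exact (Finset.disjoint_left.mp hd haS) (Finset.mem_insert_self _ _)
      have heq : C A * ∏ σ ∈ S ∪ insert a T, (X - C (r σ)) =
          (X - C (r a)) * (C A * ∏ σ ∈ S ∪ T, (X - C (r σ))) := by
        rw [Finset.union_insert, Finset.prod_insert haS]; ring
      rw [heq] at h
      exact coeff_isIntegral_of_linear_mul (r a) _ _ le_rfl h
  have h1 := key (U \ S) Finset.disjoint_sdiff (by
    rw [Finset.union_sdiff_of_subset hSU]; exact hint) 0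
  rw [coeff_zero_eq_eval_zero, eval_mul, eval_C, eval_prod] at h1
  simp only [eval_sub, eval_X, eval_C, zero_sub] at h1
  rw [Finset.prod_neg] at h1
  have h2 : A * ∏ σ ∈ S, r σ = (-1) ^ S.card * (A * ((-1) ^ S.card * ∏ σ ∈ S, r σ)) := by
    have : ((-1 : ℂ) ^ S.card) * (-1) ^ S.card = 1 := by
      rw [← mul_pow]; simp
    calc A * ∏ σ ∈ S, r σ = (((-1 : ℂ) ^ S.card) * (-1) ^ S.card) * (A * ∏ σ ∈ S, r σ) := by
          rw [this, one_mul]
      _ = _ := by ring
  rw [h2]
  exact ((isIntegral_one.neg).pow _).mul h1

end Pool.Agent.H334R2
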