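import Mathlib
import Pool.Agent.H334R2.HeightDef
import Pool.Agent.H334R2.Integral

namespace Pool.Agent.H334R2

open Polynomial IntermediateField

/-- product over embeddings of an arbitrary function of the conjugates -/
lemma prod_embeddings_fun {K : Type*} [Field K] [NumberField K] (x : K) {M : Type*} [CommMonoid M]
    (g : ℂ → M) :
    ∏ σ : K →ₐ[ℚ] ℂ, g (σ x) =
      (((minpoly ℚ x).aroots ℂ).map g).prod ^ Module.finrank ℚ⟮x⟯ K := by
  classical
  have hx : IsIntegral ℚ x := Algebra.IsIntegral.isIntegral x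
  let pb := adjoin.powerBasis hx
  have hgen : algebraMap ℚ⟮x⟯ K pb.gen = x := by
    rw [adjoin.powerBasis_gen hx]; simp
  have h1 : ∏ σ : K →ₐ[ℚ] ℂ, g (σ x) =
      (∏ τ : ℚ⟮x⟯ →ₐ[ℚ] ℂ, g (τ pb.gen)) ^ Module.finrank ℚ⟮x⟯ K := by
    rw [Fintype.prod_equiv algHomEquivSigma (fun σ : K →ₐ[ℚ] ℂ => g (σ x))
      (fun σ => g (σ.1 pb.gen)), ← Finset.univ_sigma_univ, Finset.prod_sigma, ← Finset.prod_pow]
    · refine Finset.prod_congr rfl fun σ _ => ?_
      let : Algebra ℚ⟮x⟯ ℂ := σ.toRingHom.toAlgebra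
      simp_rw [Finset.prod_const]
      congr
      exact AlgHom.card ℚ⟮x⟯ K ℂ
    · intro σ
      simp only [algHomEquivSigma, Equiv.coe_fn_mk, AlgHom.domRestrict, AlgHom.comp_apply,
        IsScalarTower.coe_toAlgHom']
      rw [hgen]
  rw [h1]
  congr 1
  have h2 : ∏ τ : ℚ⟮x⟯ →ₐ[ℚ] ℂ, g (τ pb.gen) =
      ∏ y : { y : ℂ // y ∈ (minpoly ℚ pb.gen).aroots ℂ }, g y.1 :=
    Fintype.prod_equiv pb.liftEquiv' (fun τ => g (τ pb.gen)) (fun y => g y.1)
    (fun τ => by simp only [PowerBasis.liftEquiv'_apply_coe])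
  rw [h2]
  have hmin : minpoly ℚ pb.gen = minpoly ℚ x := by
    have h3 := (minpoly.algebraMap_eq (A := ℚ) (algebraMap ℚ⟮x⟯ K).injective pb.gen)
    rw [hgen] at h3
    exact h3.symm
  rw [hmin]
  have hnd : ((minpoly ℚ x).aroots ℂ).Nodup :=
    nodup_roots (Separable.map (minpoly.irreducible hx).separable)
  rw [Finset.prod_mem_multiset _ (fun y => g y.1) g (fun y => rfl),
    Finset.prod_eq_multiset_prod, Multiset.toFinset_val,
    Multiset.dedup_eq_self.mpr hnd]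

end Pool.Agent.H334R2
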