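import Mathlib
import Pool.Agent.H334R2.HeightDef
import Pool.Agent.H334R2.Integral
import Pool.Agent.H334R2.Embed

namespace Pool.Agent.H334R2

open Polynomial IntermediateField

lemma intMinpoly_map {z : ℂ} (hz : IsAlgebraic ℚ z) :
    (intMinpoly z).leadingCoeff ≠ 0 ∧
    (intMinpoly z).map (algebraMap ℤ ℚ) =
      C ((intMinpoly z).leadingCoeff : ℚ) * minpoly ℚ z := by
  have hi : IsIntegral ℚ z := isAlgebraic_iff_isIntegral.mp hz
  set N := IsLocalization.integerNormalization (nonZeroDivisors ℤ) (minpoly ℚ z) with hN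
  obtain ⟨b, hb1, hb2⟩ := IsLocalization.integerNormalization_spec (nonZeroDivisors ℤ) (minpoly ℚ z)
  rw [← hN] at hb2
  have hb0 : (b : ℚ) ≠ 0 := by
    have := nonZeroDivisors.ne_zero hb1
    exact_mod_cast this
  have hcont := N.eq_C_content_mul_primPart
  have hpp : N.primPart = intMinpoly z := rfl
  rw [hpp] at hcont
  have hmin0 : minpoly ℚ z ≠ 0 := minpoly.ne_zero hi
  have hN0 : N ≠ 0 := by
    intro h0
    rw [h0, Polynomial.map_zero] at hb2
    have : (b : ℚ) • minpoly ℚ z = 0 := by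
      rw [hb2]; simp [Algebra.smul_def]
    rw [smul_eq_zero] at this
    rcases this with h | h
    · exact hb0 h
    · exact hmin0 h
  have hc0 : (N.content : ℚ) ≠ 0 := by
    have : N.content ≠ 0 := by rwa [Ne, content_eq_zero_iff]
    exact_mod_cast this
  have h1 : C (N.content : ℚ) * (intMinpoly z).map (algebraMap ℤ ℚ) = C (b : ℚ) * minpoly ℚ z := by
    have h2 := congrArg (Polynomial.map (algebraMap ℤ ℚ)) hcont
    rw [hb2, Polynomial.map_mul, map_C] at h2
    rw [show (algebraMap ℤ ℚ) N.content = (N.content : ℚ) from rfl] at h2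
    rw [← h2, ← smul_eq_C_mul]
    exact (Int.cast_smul_eq_zsmul ℚ b _).symm
  have h3 : (intMinpoly z).map (algebraMap ℤ ℚ) = C ((b : ℚ) / N.content) * minpoly ℚ z := by
    have h4 : C ((N.content : ℚ)⁻¹) * (C (N.content : ℚ) * (intMinpoly z).map (algebraMap ℤ ℚ)) =
      C ((N.content : ℚ)⁻¹) * (C (b : ℚ) * minpoly ℚ z) := by rw [h1]
    rw [← mul_assoc, ← C_mul, inv_mul_cancel₀ hc0, C_1, one_mul] at h4
    rw [h4, ← mul_assoc, ← C_mul]
    congr 2
    field_simp
  have h5 : ((intMinpoly z).leadingCoeff : ℚ) = (b : ℚ) / N.content := by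
    have h6 := congrArg leadingCoeff h3
    rw [leadingCoeff_map_of_injective (algebraMap ℤ ℚ).injective_int, leadingCoeff_mul,
      leadingCoeff_C, (minpoly.monic hi).leadingCoeff, mul_one] at h6
    exact h6
  constructor
  · intro h
    rw [h] at h5
    have : (b : ℚ) / N.content ≠ 0 := div_ne_zero hb0 hc0
    exact this (by rw [← h5]; simp)
  · rw [h5, h3]

end Pool.Agent.H334R2
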