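import Mathlib
import Pool.Agent.H334R2.HeightDef
import Pool.Agent.H334R2.Integral
import Pool.Agent.H334R2.Embed
import Pool.Agent.H334R2.IntMin

namespace Pool.Agent.H334R2

open Polynomial IntermediateField

lemma pow_mul_prod_pow_eq {κ : Type*} [Fintype κ] [DecidableEq κ] (A : ℂ) (y : κ → ℂ) (e : κ → ℕ)
    (δ : ℕ) (he : ∀ σ, e σ ≤ δ) :
    A ^ δ * ∏ σ, y σ ^ e σ =
      ∏ t ∈ Finset.range δ, (A * ∏ σ ∈ Finset.univ.filter (fun σ => t < e σ), y σ) := by
  rw [Finset.prod_mul_distrib]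
  congr 1
  · simp
  · have h1 : ∀ t ∈ Finset.range δ, (∏ σ ∈ Finset.univ.filter (fun σ => t < e σ), y σ) =
        ∏ σ, (if t < e σ then y σ else 1) := by
      intro t _
      rw [Finset.prod_filter]
    rw [Finset.prod_congr rfl h1, Finset.prod_comm]
    refine Finset.prod_congr rfl fun σ _ => ?_
    rw [Finset.prod_ite, Finset.prod_const_one, mul_one, Finset.prod_const]
    congr 1
    have : (Finset.range δ).filter (fun t => t < e σ) = Finset.range (e σ) := by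
      ext t
      simp only [Finset.mem_filter, Finset.mem_range]
      have := he σ
      omega
    rw [this, Finset.card_range]

theorem isIntegral_prod_eval {ι κ : Type*} [Fintype ι] [Fintype κ] [DecidableEq κ]
    [DecidableEq ι] (A : ι → ℂ)
    (y : κ → ι → ℂ)
    (hint : ∀ j, ∀ i, IsIntegral ℤ ((C (A j) * ∏ σ, (X - C (y σ j))).coeff i))
    (R : MvPolynomial ι ℤ) (δ : ℕ) (hR : ∀ s ∈ R.support, ∀ j, s j ≤ δ) :
    IsIntegral ℤ ((∏ j, A j ^ δ) * ∏ σ, MvPolynomial.aeval (y σ) R) := by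
  have h1 : ∀ σ, MvPolynomial.aeval (y σ) R =
      ∑ s ∈ R.support, ((MvPolynomial.coeff s R : ℤ) : ℂ) * ∏ j, y σ j ^ s j := by
    intro σ
    rw [MvPolynomial.aeval_def, MvPolynomial.eval₂_eq']
    rfl
  simp_rw [h1]
  rw [Finset.prod_univ_sum, Finset.mul_sum]
  refine IsIntegral.sum _ fun f hf => ?_
  rw [Fintype.mem_piFinset] at hf
  have h2 : (∏ j, A j ^ δ) *
      ∏ σ, (((MvPolynomial.coeff (f σ) R : ℤ) : ℂ) * ∏ j, y σ j ^ (f σ) j) =
      (∏ σ, ((MvPolynomial.coeff (f σ) R : ℤ) : ℂ)) *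
        ∏ j, (A j ^ δ * ∏ σ, y σ j ^ (f σ) j) := by
    rw [Finset.prod_mul_distrib, Finset.prod_mul_distrib, Finset.prod_comm (s := Finset.univ)
      (t := Finset.univ) (f := fun σ j => y σ j ^ (f σ) j)]
    ring
  rw [h2]
  refine IsIntegral.mul ?_ ?_
  · exact IsIntegral.prod _ fun σ _ => isIntegral_algebraMap
  · refine IsIntegral.prod _ fun j _ => ?_
    rw [pow_mul_prod_pow_eq (A j) (fun σ => y σ j) (fun σ => f σ j) δ
      (fun σ => hR (f σ) (hf σ) j)]
    refine IsIntegral.prod _ fun t _ => ?_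
    exact isIntegral_mul_prod_subset (A j) (fun σ => y σ j) Finset.univ _ (Finset.subset_univ _)
      (hint j)

/-- If moreover the product over embeddings is a non-zero rational number, its absolute value is
at least 1. -/
theorem one_le_norm_of_isIntegral_rat {q : ℚ} (hq : IsIntegral ℤ (q : ℂ)) (h0 : q ≠ 0) :
    1 ≤ ‖(q : ℂ)‖ := by
  have h1 : IsIntegral ℤ q := by
    have : Function.Injective (algebraMap ℚ ℂ) := (algebraMap ℚ ℂ).injective
    exact (isIntegral_algebraMap_iff this).mp (by simpa using hq)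
  obtain ⟨z, hz⟩ := IsIntegrallyClosed.isIntegral_iff.mp h1
  have hz' : (z : ℚ) = q := hz
  have hz0 : z ≠ 0 := by
    rintro rfl
    apply h0
    rw [← hz']; simp
  rw [← hz']
  have : (1 : ℤ) ≤ |z| := Int.one_le_abs hz0
  have h2 : ‖((z : ℚ) : ℂ)‖ = ((|z| : ℤ) : ℝ) := by
    rw [Rat.cast_intCast, Complex.norm_intCast, Int.cast_abs]
  rw [h2]
  exact_mod_cast this

section field

variable {K : Type*} [Field K] [NumberField K]

/-- relative leading coefficient -/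
noncomputable def relLC (φ : K →ₐ[ℚ] ℂ) (x : K) : ℤ :=
  (intMinpoly (φ x)).leadingCoeff ^ (Module.finrank ℚ⟮x⟯ K)

lemma minpoly_embed (φ : K →ₐ[ℚ] ℂ) (x : K) : minpoly ℚ (φ x) = minpoly ℚ x :=
  minpoly.algHom_eq φ φ.injective x

lemma relLC_ne_zero (φ : K →ₐ[ℚ] ℂ) (x : K) : relLC φ x ≠ 0 := by
  refine pow_ne_zero _ (intMinpoly_map ?_).1
  exact (Algebra.IsIntegral.isIntegral (R := ℚ) x).isAlgebraic.algHom φ

lemma relLC_poly (φ : K →ₐ[ℚ] ℂ) (x : K) :
    C (relLC φ x : ℂ) * ∏ σ : K →ₐ[ℚ] ℂ, (X - C (σ x)) =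
      ((intMinpoly (φ x)).map (algebraMap ℤ ℂ)) ^ (Module.finrank ℚ⟮x⟯ K) := by
  have hx : IsIntegral ℚ x := Algebra.IsIntegral.isIntegral x
  have halg : IsAlgebraic ℚ (φ x) := hx.isAlgebraic.algHom φ
  have h1 := (intMinpoly_map halg).2
  rw [prod_embeddings_fun x (fun w => X - C w)]
  have h2 : (((minpoly ℚ x).aroots ℂ).map fun w => X - C w).prod =
      (minpoly ℚ x).map (algebraMap ℚ ℂ) := by
    have hm : ((minpoly ℚ x).map (algebraMap ℚ ℂ)).Monic := (minpoly.monic hx).map _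
    have hs : ((minpoly ℚ x).map (algebraMap ℚ ℂ)).Splits := IsAlgClosed.splits _
    exact (hs.eq_prod_roots_of_monic hm).symm
  rw [h2, relLC]
  have h3 : (intMinpoly (φ x)).map (algebraMap ℤ ℂ) =
      C ((intMinpoly (φ x)).leadingCoeff : ℂ) * (minpoly ℚ x).map (algebraMap ℚ ℂ) := by
    have h4 := congrArg (Polynomial.map (algebraMap ℚ ℂ)) h1
    rw [Polynomial.map_map, Polynomial.map_mul, map_C, minpoly_embed φ x] at h4
    have h5 : (algebraMap ℚ ℂ).comp (algebraMap ℤ ℚ) = algebraMap ℤ ℂ := RingHom.ext_int _ _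
    rw [h5] at h4
    rw [h4]
    simp
  rw [h3, mul_pow, ← C_pow]
  push_cast
  rfl

/-- B3 -/
lemma relLC_mul_prod (φ : K →ₐ[ℚ] ℂ) (x : K) :
    |(relLC φ x : ℝ)| * ∏ σ : K →ₐ[ℚ] ℂ, max 1 ‖σ x‖ =
      Real.exp (Module.finrank ℚ K * absLogHeight (φ x)) := by
  have hx : IsIntegral ℚ x := Algebra.IsIntegral.isIntegral x
  have halg : IsAlgebraic ℚ (φ x) := hx.isAlgebraic.algHom φ
  have h1 := (intMinpoly_map halg)
  rw [prod_embeddings_fun x (fun w => max 1 ‖w‖)]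
  have h3 : (intMinpoly (φ x)).map (Int.castRingHom ℂ) =
      C ((intMinpoly (φ x)).leadingCoeff : ℂ) * (minpoly ℚ x).map (algebraMap ℚ ℂ) := by
    have h4 := congrArg (Polynomial.map (algebraMap ℚ ℂ)) h1.2
    rw [Polynomial.map_map, Polynomial.map_mul, map_C, minpoly_embed φ x] at h4
    have h5 : (algebraMap ℚ ℂ).comp (algebraMap ℤ ℚ) = Int.castRingHom ℂ := RingHom.ext_int _ _
    rw [h5] at h4
    rw [h4]
    simp
  have hlc : ((intMinpoly (φ x)).leadingCoeff : ℂ) ≠ 0 := by exact_mod_cast h1.1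
  have hroots : ((intMinpoly (φ x)).map (Int.castRingHom ℂ)).roots = (minpoly ℚ x).aroots ℂ := by
    rw [h3, roots_C_mul _ hlc]
  have hM : mahlerM (φ x) = |((intMinpoly (φ x)).leadingCoeff : ℝ)| *
      (((minpoly ℚ x).aroots ℂ).map fun w => max 1 ‖w‖).prod := by
    rw [mahlerM, hroots]
  have hMpos : 0 < mahlerM (φ x) := by
    rw [hM]
    refine mul_pos ?_ ?_
    · rw [abs_pos]; exact_mod_cast h1.1
    · refine Multiset.prod_pos ?_
      intro a ha
      rw [Multiset.mem_map] at ha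
      obtain ⟨w, _, rfl⟩ := ha
      positivity
  have h6 : |(relLC φ x : ℝ)| *
      (((minpoly ℚ x).aroots ℂ).map fun w => max 1 ‖w‖).prod ^ Module.finrank ℚ⟮x⟯ K =
      mahlerM (φ x) ^ Module.finrank ℚ⟮x⟯ K := by
    rw [hM, mul_pow, relLC]
    push_cast
    rw [abs_pow]
  rw [h6]
  have hdeg : Module.finrank ℚ K = (minpoly ℚ x).natDegree * Module.finrank ℚ⟮x⟯ K := by
    rw [← IntermediateField.adjoin.finrank hx]
    exact (Module.finrank_mul_finrank ℚ ℚ⟮x⟯ K).symm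
  have hnd : ((minpoly ℚ x).natDegree : ℝ) ≠ 0 := by
    have := minpoly.natDegree_pos hx
    positivity
  rw [absLogHeight, minpoly_embed φ x, hdeg]
  push_cast
  have : (((minpoly ℚ x).natDegree : ℝ) * (Module.finrank ℚ⟮x⟯ K : ℝ)) *
      (Real.log (mahlerM (φ x)) / ((minpoly ℚ x).natDegree : ℝ)) =
      (Module.finrank ℚ⟮x⟯ K : ℝ) * Real.log (mahlerM (φ x)) := by
    field_simp
  rw [this, Real.exp_nat_mul, Real.exp_log hMpos]

/-- The norm inequality (Liouville-type, before estimating). -/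
theorem one_le_prod_eval {ι : Type*} [Fintype ι] [DecidableEq ι] (φ : K →ₐ[ℚ] ℂ) (x : ι → K)
    (R : MvPolynomial ι ℤ) (δ : ℕ) (hR : ∀ s ∈ R.support, ∀ j, s j ≤ δ)
    (h0 : MvPolynomial.aeval x R ≠ 0) :
    1 ≤ (∏ j, |(relLC φ (x j) : ℝ)| ^ δ) *
      ∏ σ : K →ₐ[ℚ] ℂ, ‖MvPolynomial.aeval (fun j => σ (x j)) R‖ := by
  classical
  have h1 : IsIntegral ℤ ((∏ j, (relLC φ (x j) : ℂ) ^ δ) *
      ∏ σ : K →ₐ[ℚ] ℂ, MvPolynomial.aeval (fun j => σ (x j)) R) := by
    have hh := isIntegral_prod_eval (ι := ι) (κ := K →ₐ[ℚ] ℂ) (fun j => (relLC φ (x j) : ℂ))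
      (fun σ j => σ (x j))
      (by
        intro j i
        rw [relLC_poly φ (x j), ← Polynomial.map_pow, coeff_map]
        exact isIntegral_algebraMap) R δ hR
    exact hh
  have h2 : ∏ σ : K →ₐ[ℚ] ℂ, MvPolynomial.aeval (fun j => σ (x j)) R =
      algebraMap ℚ ℂ (Algebra.norm ℚ (MvPolynomial.aeval x R)) := by
    rw [Algebra.norm_eq_prod_embeddings]
    refine Finset.prod_congr rfl fun σ _ => ?_
    have : (fun j => σ (x j)) = (σ.toRingHom ∘ x) := rfl
    rw [MvPolynomial.aeval_def, MvPolynomial.aeval_def]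
    have h3 := MvPolynomial.eval₂_comp_left (σ : K →+* ℂ) (algebraMap ℤ K) x R
    rw [show σ (MvPolynomial.eval₂ (algebraMap ℤ K) x R) = (σ : K →+* ℂ)
      (MvPolynomial.eval₂ (algebraMap ℤ K) x R) from rfl, h3]
    congr 1
    exact RingHom.ext_int _ _
  have h3 : (∏ j, (relLC φ (x j) : ℂ) ^ δ) *
      ∏ σ : K →ₐ[ℚ] ℂ, MvPolynomial.aeval (fun j => σ (x j)) R =
      (((∏ j, (relLC φ (x j) : ℚ) ^ δ) * (Algebra.norm ℚ (MvPolynomial.aeval x R)) : ℚ) : ℂ) := by
    rw [h2]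
    push_cast
    rfl
  have h4 := one_le_norm_of_isIntegral_rat (q := (∏ j, (relLC φ (x j) : ℚ) ^ δ) *
      (Algebra.norm ℚ (MvPolynomial.aeval x R))) (by rw [← h3]; exact h1) (by
        refine mul_ne_zero ?_ ?_
        · refine Finset.prod_ne_zero_iff.mpr fun j _ => pow_ne_zero _ ?_
          exact_mod_cast relLC_ne_zero φ (x j)
        · exact Algebra.norm_ne_zero_iff.mpr h0)
  rw [← h3, norm_mul, norm_prod, norm_prod] at h4
  refine h4.trans (le_of_eq ?_)
  congr 1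
  refine Finset.prod_congr rfl fun j _ => ?_
  rw [norm_pow, Complex.norm_intCast]

end field

end Pool.Agent.H334R2
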