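import Mathlib
import Pool.Agent.H334R2.Deriv
import Pool.Agent.H334R2.NormInt

namespace Pool.Agent.H334R2

open MvPolynomial

/-- trivial upper bound for a value -/
lemma norm_aeval_le {n δ T : ℕ} {R : MvPolynomial (Vars n) ℤ} (h : InBox (δ + 1) T R)
    (y : Vars n → ℂ) :
    ‖aeval y R‖ ≤ ((δ + 1) ^ (2 * n) * T : ℝ) * ∏ j, max 1 ‖y j‖ ^ δ := by
  have h1 : aeval y R = ∑ s ∈ R.support, ((coeff s R : ℤ) : ℂ) * ∏ j, y j ^ s j := by
    rw [MvPolynomial.aeval_def, MvPolynomial.eval₂_eq']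
    rfl
  rw [h1]
  refine (norm_sum_le _ _).trans ?_
  have h2 : ∀ s ∈ R.support, ‖((coeff s R : ℤ) : ℂ) * ∏ j, y j ^ s j‖ ≤
      T * ∏ j, max 1 ‖y j‖ ^ δ := by
    intro s hs
    rw [norm_mul, norm_prod]
    refine mul_le_mul ?_ ?_ (Finset.prod_nonneg fun _ _ => norm_nonneg _) (by positivity)
    · rw [Complex.norm_intCast]
      exact_mod_cast h.2 s
    · refine Finset.prod_le_prod (fun _ _ => norm_nonneg _) fun j _ => ?_
      rw [norm_pow]
      have hsj : s j ≤ δ := by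
        have := h.1 s (by rwa [mem_support_iff] at hs) j
        omega
      calc ‖y j‖ ^ s j ≤ max 1 ‖y j‖ ^ s j := pow_le_pow_left₀ (norm_nonneg _) (le_max_right _ _) _
        _ ≤ max 1 ‖y j‖ ^ δ := pow_le_pow_right₀ (le_max_left _ _) hsj
  refine (Finset.sum_le_sum h2).trans ?_
  rw [Finset.sum_const, nsmul_eq_mul, ← mul_assoc]
  refine mul_le_mul_of_nonneg_right ?_ (by positivity)
  refine mul_le_mul_of_nonneg_right ?_ (by positivity)
  exact_mod_cast card_support_le h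

section field

variable {K : Type*} [Field K] [NumberField K]

lemma aeval_comp_algHom {ι : Type*} (σ : K →ₐ[ℚ] ℂ) (x : ι → K) (R : MvPolynomial ι ℤ) :
    aeval (fun j => σ (x j)) R = σ (aeval x R) := by
  rw [MvPolynomial.aeval_def, MvPolynomial.aeval_def]
  have h3 := MvPolynomial.eval₂_comp_left (σ : K →+* ℂ) (algebraMap ℤ K) x R
  rw [show σ (MvPolynomial.eval₂ (algebraMap ℤ K) x R) = (σ : K →+* ℂ)
    (MvPolynomial.eval₂ (algebraMap ℤ K) x R) from rfl, h3]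
  congr 1
  exact (RingHom.ext_int _ _)

/-- the norm inequality, normalised -/
theorem one_le_prod_normalised {n : ℕ} (φ : K →ₐ[ℚ] ℂ) (x : Vars n → K) (M : ℝ)
    (hM : ∀ j, Module.finrank ℚ K * absLogHeight (φ (x j)) ≤ M)
    (R : MvPolynomial (Vars n) ℤ) (δ : ℕ) (hR : ∀ s, coeff s R ≠ 0 → ∀ j, s j < δ + 1)
    (h0 : MvPolynomial.aeval x R ≠ 0) :
    1 ≤ Real.exp (2 * n * δ * M) * ∏ σ : K →ₐ[ℚ] ℂ,
      (‖aeval (fun j => σ (x j)) R‖ / ∏ j, max 1 ‖σ (x j)‖ ^ δ) := by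
  classical
  have h1 := one_le_prod_eval φ x R δ
    (fun s hs j => Nat.lt_succ_iff.mp (hR s (by rwa [mem_support_iff] at hs) j)) h0
  have hpos : ∀ σ : K →ₐ[ℚ] ℂ, 0 < ∏ j, max 1 ‖σ (x j)‖ ^ δ := fun σ =>
    Finset.prod_pos fun j _ => by positivity
  have h2 : ∏ σ : K →ₐ[ℚ] ℂ, ‖aeval (fun j => σ (x j)) R‖ =
      (∏ σ : K →ₐ[ℚ] ℂ, ∏ j, max 1 ‖σ (x j)‖ ^ δ) * ∏ σ : K →ₐ[ℚ] ℂ,
      (‖aeval (fun j => σ (x j)) R‖ / ∏ j, max 1 ‖σ (x j)‖ ^ δ) := by
    rw [← Finset.prod_mul_distrib]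
    refine Finset.prod_congr rfl fun σ _ => ?_
    rw [mul_div_cancel₀ _ (hpos σ).ne']
  rw [h2, ← mul_assoc, Finset.prod_comm, ← Finset.prod_mul_distrib] at h1
  refine h1.trans ?_
  refine mul_le_mul_of_nonneg_right ?_ (Finset.prod_nonneg fun σ _ => by positivity)
  have h3 : ∀ j ∈ (Finset.univ : Finset (Vars n)),
      |(relLC φ (x j) : ℝ)| ^ δ * ∏ σ : K →ₐ[ℚ] ℂ, max 1 ‖σ (x j)‖ ^ δ ≤
      Real.exp (δ * M) := by
    intro j _
    rw [Finset.prod_pow, ← mul_pow, relLC_mul_prod, ← Real.exp_nat_mul]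
    exact Real.exp_le_exp.mpr (mul_le_mul_of_nonneg_left (hM j) (by positivity))
  refine (Finset.prod_le_prod (fun j _ => by positivity) h3).trans ?_
  rw [Finset.prod_const, Finset.card_univ, Fintype.card_sum, Fintype.card_fin, ← Real.exp_nat_mul]
  refine le_of_eq ?_
  congr 1
  push_cast
  ring

/-- Liouville inequality -/
theorem liouville {n : ℕ} (φ : K →ₐ[ℚ] ℂ) (x : Vars n → K) (M : ℝ)
    (hM : ∀ j, Module.finrank ℚ K * absLogHeight (φ (x j)) ≤ M)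
    (R : MvPolynomial (Vars n) ℤ) (δ T : ℕ) (hT : 1 ≤ T) (hR : InBox (δ + 1) T R)
    (h0 : aeval (fun j => φ (x j)) R ≠ 0) :
    1 ≤ Real.exp (2 * n * δ * M) * ((δ + 1) ^ (2 * n) * T : ℝ) ^ (Module.finrank ℚ K) *
      ‖aeval (fun j => φ (x j)) R‖ := by
  classical
  have h0' : aeval x R ≠ 0 := by
    intro h; apply h0; rw [aeval_comp_algHom, h, map_zero]
  have h1 := one_le_prod_normalised φ x M hM R δ hR.1 h0'
  refine h1.trans ?_
  rw [mul_assoc (Real.exp (2 * n * δ * M))]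
  refine mul_le_mul_of_nonneg_left ?_ (Real.exp_pos _).le
  have hNT : (1 : ℝ) ≤ ((δ + 1) ^ (2 * n) * T : ℝ) := by
    have ha : (1 : ℝ) ≤ (δ + 1 : ℝ) ^ (2 * n) := one_le_pow₀ (by
      have : (0 : ℝ) ≤ δ := by positivity
      linarith)
    have hb : (1 : ℝ) ≤ T := by exact_mod_cast hT
    nlinarith
  have hpos : ∀ σ : K →ₐ[ℚ] ℂ, 1 ≤ ∏ j, max 1 ‖σ (x j)‖ ^ δ := by
    intro σ
    calc (1 : ℝ) = ∏ j : Vars n, (1 : ℝ) := by simp
      _ ≤ ∏ j, max 1 ‖σ (x j)‖ ^ δ := Finset.prod_le_prod (fun _ _ => zero_le_one)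
        (fun j _ => one_le_pow₀ (le_max_left _ _))
  rw [← Finset.mul_prod_erase Finset.univ _ (Finset.mem_univ φ)]
  have h2 : ‖aeval (fun j => φ (x j)) R‖ / ∏ j, max 1 ‖φ (x j)‖ ^ δ ≤
      ‖aeval (fun j => φ (x j)) R‖ := div_le_self (norm_nonneg _) (hpos φ)
  have h3 : ∏ σ ∈ Finset.univ.erase φ, (‖aeval (fun j => σ (x j)) R‖ /
      ∏ j, max 1 ‖σ (x j)‖ ^ δ) ≤ ((δ + 1) ^ (2 * n) * T : ℝ) ^ (Module.finrank ℚ K) := by
    have h4 : ∀ σ ∈ Finset.univ.erase φ, (‖aeval (fun j => σ (x j)) R‖ /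
      ∏ j, max 1 ‖σ (x j)‖ ^ δ) ≤ ((δ + 1) ^ (2 * n) * T : ℝ) := by
      intro σ _
      rw [div_le_iff₀ (lt_of_lt_of_le one_pos (hpos σ))]
      exact norm_aeval_le hR _
    refine (Finset.prod_le_prod (fun σ _ => by
      exact div_nonneg (norm_nonneg _) (zero_le_one.trans (hpos σ))) h4).trans ?_
    rw [Finset.prod_const]
    refine pow_le_pow_right₀ hNT ?_
    rw [Finset.card_erase_of_mem (Finset.mem_univ φ), Finset.card_univ, AlgHom.card]
    exact Nat.sub_le _ _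
  rw [mul_comm]
  exact mul_le_mul h3 h2 (div_nonneg (norm_nonneg _) (zero_le_one.trans (hpos φ))) (by positivity)

/-- Siegel's lemma by the pigeonhole principle. -/
theorem siegel {n : ℕ} (φ : K →ₐ[ℚ] ℂ) (x : Vars n → K) (M : ℝ)
    (hM : ∀ j, Module.finrank ℚ K * absLogHeight (φ (x j)) ≤ M)
    (δ q : ℕ) (hδ : 4 * Module.finrank ℚ K ≤ (δ + 1) ^ (2 * n))
    (hq : 2 * Real.exp (2 * n * δ * M / Module.finrank ℚ K) < q) :
    ∃ P : MvPolynomial (Vars n) ℤ, P ≠ 0 ∧ InBox (δ + 1) (2 * (δ + 1) ^ (2 * n) * q) P ∧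
      aeval (fun j => φ (x j)) P = 0 := by
  classical
  set d := Module.finrank ℚ K with hd
  have hdpos : 0 < d := Module.finrank_pos
  set N := (δ + 1) ^ (2 * n) with hN
  have hNpos : 0 < N := by positivity
  have hqpos : 0 < q := by
    have : (0 : ℝ) < q := lt_trans (by positivity) hq
    exact_mod_cast this
  set X := 2 * N * q with hX
  have hXpos : 0 < X := by positivity
  let w : (K →ₐ[ℚ] ℂ) → ℝ := fun σ => ∏ j, max 1 ‖σ (x j)‖ ^ δ
  have hw : ∀ σ, 0 < w σ := fun σ => Finset.prod_pos fun j _ => by positivity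
  let z : ((Vars n → Fin (δ + 1)) → ℤ) → (K →ₐ[ℚ] ℂ) → ℂ := fun c σ =>
    aeval (fun j => σ (x j)) (toPoly c) / (w σ : ℂ)
  let Dm : Finset ((Vars n → Fin (δ + 1)) → ℤ) := Fintype.piFinset fun _ => Finset.Icc 0 (X : ℤ)
  let Cd : Finset ((K →ₐ[ℚ] ℂ) → ℤ × ℤ) := Fintype.piFinset fun _ =>
    (Finset.Icc (-(N * X * q : ℤ)) (N * X * q)) ×ˢ (Finset.Icc (-(N * X * q : ℤ)) (N * X * q))
  let F : ((Vars n → Fin (δ + 1)) → ℤ) → ((K →ₐ[ℚ] ℂ) → ℤ × ℤ) := fun c σ =>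
    (⌊(z c σ).re * q⌋, ⌊(z c σ).im * q⌋)
  have hcoef : ∀ c ∈ Dm, ∀ s, |c s| ≤ (X : ℤ) := by
    intro c hc s
    rw [Fintype.mem_piFinset] at hc
    have := hc s
    rw [Finset.mem_Icc] at this
    rw [abs_of_nonneg this.1]; exact this.2
  have hz : ∀ c ∈ Dm, ∀ σ, ‖z c σ‖ ≤ N * X := by
    intro c hc σ
    have h1 := norm_aeval_le (toPoly_inBox c (hcoef c hc)) (fun j => σ (x j))
    change ‖aeval (fun j => σ (x j)) (toPoly c) / (w σ : ℂ)‖ ≤ _
    rw [norm_div, Complex.norm_real, Real.norm_of_nonneg (hw σ).le, div_le_iff₀ (hw σ)]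
    refine h1.trans (le_of_eq ?_)
    simp only [hN, w]
    push_cast
    ring
  have hfl : ∀ r : ℝ, |r| ≤ N * X → ⌊r * q⌋ ∈ Finset.Icc (-(N * X * q : ℤ)) (N * X * q) := by
    intro r hr
    rw [abs_le] at hr
    have hq0 : (0 : ℝ) ≤ q := by positivity
    rw [Finset.mem_Icc, Int.le_floor]
    constructor
    · push_cast
      nlinarith [hr.1]
    · have h2 : r * q ≤ N * X * q := mul_le_mul_of_nonneg_right hr.2 hq0
      have h3 : ((⌊r * q⌋ : ℤ) : ℝ) ≤ N * X * q := (Int.floor_le _).trans h2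
      exact_mod_cast h3
  have hmaps : ∀ c ∈ Dm, F c ∈ Cd := by
    intro c hc
    rw [Fintype.mem_piFinset]
    intro σ
    rw [Finset.mem_product]
    exact ⟨hfl _ ((Complex.abs_re_le_norm _).trans (hz c hc σ)),
      hfl _ ((Complex.abs_im_le_norm _).trans (hz c hc σ))⟩
  have hcardD : Dm.card = (X + 1) ^ N := by
    have h1 : ((X : ℤ) + 1 - 0).toNat = X + 1 := by omega
    simp only [Dm, Fintype.card_piFinset, Finset.prod_const, Finset.card_univ, Int.card_Icc,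
      Fintype.card_fin, Fintype.card_fun, Fintype.card_sum, h1, hN, two_mul n]
  have hcardC : Cd.card = (2 * (N * X * q) + 1) ^ (2 * d) := by
    have h1 : ((N * X * q : ℤ) + 1 - (-(N * X * q : ℤ))).toNat = 2 * (N * X * q) + 1 := by
      have : (N * X * q : ℤ) + 1 - (-(N * X * q : ℤ)) = ((2 * (N * X * q) + 1 : ℕ) : ℤ) := by
        push_cast; ring
      rw [this, Int.toNat_natCast]
    simp only [Cd, Fintype.card_piFinset, Finset.prod_const, Finset.card_univ,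
      Finset.card_product, Int.card_Icc, h1, AlgHom.card]
    rw [← sq, ← pow_mul]
  have hlt : Cd.card < Dm.card := by
    rw [hcardD, hcardC]
    have h1 : 2 * (N * X * q) + 1 < (X + 1) ^ 2 := by
      have : 2 * (N * X * q) = X * X := by rw [hX]; ring
      rw [this]
      nlinarith
    calc (2 * (N * X * q) + 1) ^ (2 * d) < ((X + 1) ^ 2) ^ (2 * d) :=
          Nat.pow_lt_pow_left h1 (by omega)
      _ = (X + 1) ^ (4 * d) := by rw [← pow_mul]; congr 1; ring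
      _ ≤ (X + 1) ^ N := Nat.pow_le_pow_right (by omega) hδ
  obtain ⟨c, hc, c', hc', hne, heq⟩ := Finset.exists_ne_map_eq_of_card_lt_of_maps_to hlt hmaps
  set P := toPoly (fun s => c s - c' s) with hP
  have hPne : P ≠ 0 := by
    intro h0
    apply hne
    funext s
    have := coeff_toPoly (fun s => c s - c' s) s
    rw [← hP, h0, coeff_zero] at this
    omega
  have hPbox : InBox (δ + 1) X P := by
    refine toPoly_inBox _ fun s => ?_
    rw [Fintype.mem_piFinset] at hc hc'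
    have h1 := hc s
    have h2 := hc' s
    rw [Finset.mem_Icc] at h1 h2
    rw [abs_le]
    constructor <;> omega
  refine ⟨P, hPne, hPbox, ?_⟩
  by_contra hcon
  have h0 : aeval x P ≠ 0 := by
    intro h; apply hcon; rw [aeval_comp_algHom, h, map_zero]
  have h1 := one_le_prod_normalised φ x M hM P δ hPbox.1 h0
  have h2 : ∀ σ ∈ (Finset.univ : Finset (K →ₐ[ℚ] ℂ)), (‖aeval (fun j => σ (x j)) P‖ /
      ∏ j, max 1 ‖σ (x j)‖ ^ δ) ≤ 2 / q := by
    intro σ _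
    have hqr : (0 : ℝ) < q := by exact_mod_cast hqpos
    have h3 : aeval (fun j => σ (x j)) P / (w σ : ℂ) = z c σ - z c' σ := by
      simp only [z, hP]
      rw [← sub_div, ← map_sub, toPoly_sub]
    have h4 : ‖aeval (fun j => σ (x j)) P‖ / ∏ j, max 1 ‖σ (x j)‖ ^ δ =
        ‖z c σ - z c' σ‖ := by
      rw [← h3, norm_div, Complex.norm_real, Real.norm_of_nonneg (hw σ).le]
    rw [h4]
    have h5 := congrFun heq σ
    simp only [F, Prod.mk.injEq] at h5
    have h6 := Int.abs_sub_lt_one_of_floor_eq_floor h5.1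
    have h7 := Int.abs_sub_lt_one_of_floor_eq_floor h5.2
    have h8 : |(z c σ - z c' σ).re| ≤ 1 / q := by
      rw [Complex.sub_re, le_div_iff₀ hqr]
      rw [← sub_mul, abs_mul, abs_of_pos hqr] at h6
      exact h6.le
    have h9 : |(z c σ - z c' σ).im| ≤ 1 / q := by
      rw [Complex.sub_im, le_div_iff₀ hqr]
      rw [← sub_mul, abs_mul, abs_of_pos hqr] at h7
      exact h7.le
    calc ‖z c σ - z c' σ‖ ≤ |(z c σ - z c' σ).re| + |(z c σ - z c' σ).im| :=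
          Complex.norm_le_abs_re_add_abs_im _
      _ ≤ 1 / q + 1 / q := add_le_add h8 h9
      _ = 2 / q := by ring
  have h3 : ∏ σ : K →ₐ[ℚ] ℂ, (‖aeval (fun j => σ (x j)) P‖ /
      ∏ j, max 1 ‖σ (x j)‖ ^ δ) ≤ (2 / q) ^ d := by
    refine (Finset.prod_le_prod (fun σ _ => by positivity) h2).trans ?_
    rw [Finset.prod_const, Finset.card_univ, AlgHom.card]
  have hqr : (0 : ℝ) < q := by exact_mod_cast hqpos
  have hdr : (0 : ℝ) < d := by exact_mod_cast hdpos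
  have h4 : Real.exp (2 * n * δ * M) = Real.exp (2 * n * δ * M / d) ^ d := by
    rw [← Real.exp_nat_mul]; congr 1; field_simp
  have h5 : Real.exp (2 * n * δ * M) * (2 / q) ^ d < 1 := by
    rw [h4, ← mul_pow]
    refine pow_lt_one₀ (by positivity) ?_ hdpos.ne'
    rw [mul_div_assoc', div_lt_one hqr]
    linarith
  have h6 : Real.exp (2 * n * δ * M) * ∏ σ : K →ₐ[ℚ] ℂ, (‖aeval (fun j => σ (x j)) P‖ /
      ∏ j, max 1 ‖σ (x j)‖ ^ δ) ≤ Real.exp (2 * n * δ * M) * (2 / q) ^ d :=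
    mul_le_mul_of_nonneg_left h3 (Real.exp_pos _).le
  linarith

end field

end Pool.Agent.H334R2
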