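import Mathlib
import Pool.Agent.H334R2.Deriv

namespace Pool.Agent.H334R2

open MvPolynomial

/-- the leaf through `(β, α)` in direction `v`. -/
noncomputable def curve {n : ℕ} (β α v : Fin n → ℂ) (w : ℂ) : Vars n → ℂ :=
  Sum.elim (fun i => β i + w * v i) (fun i => α i * Complex.exp (w * v i))

lemma D_X_inl {n : ℕ} (i k : Fin n) :
    D i (X (Sum.inl k) : MvPolynomial (Vars n) ℤ) = if i = k then 1 else 0 := by
  classical
  rw [D_apply, pderiv_X, pderiv_X]
  by_cases h : i = k
  · subst h; simp
  · simp [h, Pi.single_apply, Ne.symm h]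

lemma D_X_inr {n : ℕ} (i k : Fin n) :
    D i (X (Sum.inr k) : MvPolynomial (Vars n) ℤ) = if i = k then X (Sum.inr k) else 0 := by
  classical
  rw [D_apply, pderiv_X, pderiv_X]
  by_cases h : i = k
  · subst h; simp
  · simp [h, Pi.single_apply, Ne.symm h]

lemma hasDerivAt_curve {n : ℕ} (β α v : Fin n → ℂ) (Q : MvPolynomial (Vars n) ℤ) (w : ℂ) :
    HasDerivAt (fun w => aeval (curve β α v w) Q)
      (∑ i, v i * aeval (curve β α v w) (D i Q)) w := by
  induction Q using MvPolynomial.induction_on with
  | C a =>
    have h1 : ∀ i : Fin n, D i (C a : MvPolynomial (Vars n) ℤ) = 0 := by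
      intro i; rw [D_apply, pderiv_C, pderiv_C]; simp
    simp only [h1, map_zero, mul_zero, Finset.sum_const_zero, algHom_C]
    exact hasDerivAt_const _ _
  | add p q hp hq =>
    simp only [map_add, mul_add, Finset.sum_add_distrib]
    exact hp.add hq
  | mul_X p j hp =>
    have h1 : ∀ i : Fin n, aeval (curve β α v w) (D i (p * X j)) =
        aeval (curve β α v w) (D i p) * curve β α v w j +
        aeval (curve β α v w) p * aeval (curve β α v w) (D i (X j : MvPolynomial (Vars n) ℤ)) := by
      intro i
      rw [Derivation.leibniz, smul_eq_mul, smul_eq_mul]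
      simp only [map_add, map_mul, aeval_X]
      ring
    have h2 : HasDerivAt (fun w => curve β α v w j)
        (∑ i, v i * aeval (curve β α v w) (D i (X j : MvPolynomial (Vars n) ℤ))) w := by
      rcases j with k | k
      · simp only [D_X_inl]
        have : ∑ i, v i * aeval (curve β α v w)
            (if i = k then (1 : MvPolynomial (Vars n) ℤ) else 0) = v k := by
          rw [Finset.sum_eq_single k]
          · simp
          · intro b _ hb; simp [hb]
          · intro h; exact absurd (Finset.mem_univ _) h
        rw [this]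
        simp only [curve, Sum.elim_inl]
        simpa using ((hasDerivAt_id w).mul_const (v k)).const_add (β k)
      · simp only [D_X_inr]
        have : ∑ i, v i * aeval (curve β α v w)
            (if i = k then (X (Sum.inr k) : MvPolynomial (Vars n) ℤ) else 0) =
            v k * (α k * Complex.exp (w * v k)) := by
          rw [Finset.sum_eq_single k]
          · simp [curve]
          · intro b _ hb; simp [hb]
          · intro h; exact absurd (Finset.mem_univ _) h
        rw [this]
        simp only [curve, Sum.elim_inr]
        have h3 := (((hasDerivAt_id' w).mul_const (v k)).cexp).const_mul (α k)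
        exact h3.congr_deriv (by ring)
    have h3 := hp.mul h2
    have h4 : (fun w => aeval (curve β α v w) (p * X j)) =
        (fun w => aeval (curve β α v w) p) * (fun w => curve β α v w j) := by
      funext w
      simp only [map_mul, aeval_X, Pi.mul_apply]
    rw [h4]
    refine h3.congr_deriv ?_
    simp only [h1, mul_add, Finset.sum_add_distrib, Finset.sum_mul, Finset.mul_sum]
    congr 1
    · exact Finset.sum_congr rfl fun i _ => by ring
    · exact Finset.sum_congr rfl fun i _ => by ring

lemma differentiable_curve {n : ℕ} (β α v : Fin n → ℂ) (Q : MvPolynomial (Vars n) ℤ) :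
    Differentiable ℂ (fun w => aeval (curve β α v w) Q) :=
  fun w => (hasDerivAt_curve β α v Q w).differentiableAt

lemma iteratedDeriv_curve {n : ℕ} (β α v : Fin n → ℂ) (S : Set (MvPolynomial (Vars n) ℤ))
    (hS : ∀ Q ∈ S, ∀ i, D i Q ∈ S) (h0 : ∀ Q ∈ S, aeval (curve β α v 0) Q = 0) (t : ℕ) :
    ∀ Q ∈ S, iteratedDeriv t (fun w => aeval (curve β α v w) Q) 0 = 0 := by
  induction t with
  | zero => intro Q hQ; simpa using h0 Q hQ
  | succ t ih =>
    intro Q hQ
    rw [iteratedDeriv_succ']
    have h1 : deriv (fun w => aeval (curve β α v w) Q) =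
        fun w => ∑ i, v i * aeval (curve β α v w) (D i Q) := by
      funext w
      exact (hasDerivAt_curve β α v Q w).deriv
    rw [h1, iteratedDeriv_fun_sum]
    · refine Finset.sum_eq_zero fun i _ => ?_
      rw [iteratedDeriv_const_mul_field, ih _ (hS Q hQ i), mul_zero]
    · intro i _
      exact ((differentiable_curve β α v (D i Q)).const_mul (v i)).contDiff.contDiffAt

/-- if a `D`-stable family of polynomials vanishes at `(β, α)` with all `α_i ≠ 0`, then all of its
members are zero. -/
theorem eq_zero_of_stable {n : ℕ} (γ : Vars n → ℂ) (hα : ∀ i, γ (Sum.inr i) ≠ 0)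
    (S : Set (MvPolynomial (Vars n) ℤ))
    (hS : ∀ Q ∈ S, ∀ i, D i Q ∈ S) (h0 : ∀ Q ∈ S, aeval γ Q = 0) :
    ∀ Q ∈ S, Q = 0 := by
  intro Q hQ
  set β : Fin n → ℂ := fun i => γ (Sum.inl i) with hβ
  set α : Fin n → ℂ := fun i => γ (Sum.inr i) with hα'
  have hcurve0 : ∀ v, curve β α v 0 = γ := by
    intro v
    funext j
    rcases j with k | k
    · simp [curve, hβ]
    · simp [curve, hα']
  have hline : ∀ v : Fin n → ℂ, aeval (curve β α v 1) Q = 0 := by
    intro v
    have h1 : ∀ t, iteratedDeriv t (fun w => aeval (curve β α v w) Q) 0 = 0 := by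
      intro t
      exact iteratedDeriv_curve β α v S hS (by intro R hR; rw [hcurve0]; exact h0 R hR) t Q hQ
    have h2 := Complex.taylorSeries_eq_of_entire' 0 1 (differentiable_curve β α v Q)
    simp only [h1, mul_zero, zero_mul, tsum_zero] at h2
    exact h2.symm
  -- for every y with nonzero entries and every x
  have hxy : ∀ x y : Fin n → ℂ, (∀ i, y i ≠ 0) → aeval (Sum.elim x y : Vars n → ℂ) Q = 0 := by
    intro x y hy
    -- polynomial in X
    let F : MvPolynomial (Fin n) ℂ :=
      aeval (Sum.elim (fun i => X i) (fun i => C (y i)) : Vars n → MvPolynomial (Fin n) ℂ) Q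
    have hF : ∀ x : Fin n → ℂ, eval x F = aeval (Sum.elim x y : Vars n → ℂ) Q := by
      intro x
      have h1 : eval x F = (eval x).comp ((aeval (Sum.elim (fun i => X i) (fun i => C (y i)) :
        Vars n → MvPolynomial (Fin n) ℂ) : MvPolynomial (Vars n) ℤ →ₐ[ℤ] _) :
          MvPolynomial (Vars n) ℤ →+* MvPolynomial (Fin n) ℂ) Q := rfl
      rw [h1]
      have h2 : (eval x).comp ((aeval (Sum.elim (fun i => X i) (fun i => C (y i)) :
        Vars n → MvPolynomial (Fin n) ℂ) : MvPolynomial (Vars n) ℤ →ₐ[ℤ] _) :
          MvPolynomial (Vars n) ℤ →+* MvPolynomial (Fin n) ℂ) =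
          ((aeval (Sum.elim x y : Vars n → ℂ) : MvPolynomial (Vars n) ℤ →ₐ[ℤ] ℂ) :
          MvPolynomial (Vars n) ℤ →+* ℂ) := by
        refine MvPolynomial.ringHom_ext ?_ ?_
        · intro r; simp
        · intro j
          rcases j with k | k <;> simp
      rw [h2]
      rfl
    have hv : ∀ i, ∃ v0 : ℂ, α i * Complex.exp v0 = y i := by
      intro i
      refine ⟨Complex.log (y i / α i), ?_⟩
      rw [Complex.exp_log (div_ne_zero (hy i) (hα i))]
      have := hα i
      rw [mul_comm]
      exact div_mul_cancel₀ _ this
    choose v0 hv0 using hv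
    have hF0 : F = 0 := by
      refine MvPolynomial.funext_set
        (fun i => Set.range fun k : ℕ => β i + (v0 i + k * (2 * Real.pi * Complex.I))) ?_ ?_
      · intro i
        refine Set.infinite_range_of_injective ?_
        intro k l hkl
        simp only [add_right_inj, mul_eq_mul_right_iff, Nat.cast_inj] at hkl
        rcases hkl with h | h
        · exact h
        · exact absurd h Complex.two_pi_I_ne_zero
      · intro z hz
        rw [map_zero, hF]
        simp only [Set.mem_univ_pi, Set.mem_range] at hz
        choose k hk using hz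
        have := hline (fun i => v0 i + k i * (2 * Real.pi * Complex.I))
        have hc : curve β α (fun i => v0 i + k i * (2 * Real.pi * Complex.I)) 1 =
            (Sum.elim z y : Vars n → ℂ) := by
          funext j
          rcases j with i | i
          · simp only [Sum.elim_inl, curve, one_mul]; exact (hk i)
          · simp only [Sum.elim_inr, curve, one_mul]
            rw [Complex.exp_add, Complex.exp_nat_mul_two_pi_mul_I, mul_one]
            exact (hv0 i)
        rw [hc] at this
        exact this
    rw [← hF, hF0, map_zero]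
  -- conclude
  have hmap : MvPolynomial.map (Int.castRingHom ℂ) Q = 0 := by
    refine MvPolynomial.funext_set
      (fun _ => {z : ℂ | z ≠ 0}) ?_ ?_
    · intro _
      have : {z : ℂ | z ≠ 0} = ({0} : Set ℂ)ᶜ := rfl
      rw [this]
      exact (Set.finite_singleton 0).infinite_compl
    · intro z hz
      rw [map_zero, eval_map]
      simp only [Set.mem_univ_pi, Set.mem_setOf_eq] at hz
      have h3 := hxy (fun i => z (Sum.inl i)) (fun i => z (Sum.inr i)) (fun i => hz _)
      have h4 : (Sum.elim (fun i => z (Sum.inl i)) (fun i => z (Sum.inr i)) : Vars n → ℂ) = z :=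
        Sum.elim_comp_inl_inr z
      rw [h4] at h3
      exact h3
  exact (MvPolynomial.map_injective (Int.castRingHom ℂ) Int.cast_injective) (by rw [hmap, map_zero])

end Pool.Agent.H334R2
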