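import Mathlib
import Pool.Agent.H334R2.Deriv
import Pool.Agent.H334R2.LeafZero

namespace Pool.Agent.H334R2

open MvPolynomial

/-- all polynomials obtained from `P` by applying exactly `s` derivations `D i`. -/
noncomputable def words {n : ℕ} (P : MvPolynomial (Vars n) ℤ) : ℕ → Set (MvPolynomial (Vars n) ℤ)
  | 0 => {P}
  | (s + 1) => {Q | ∃ G ∈ words P s, ∃ i, Q = D i G}

/-- the ideal generated by the words of length at most `s`. -/
noncomputable def wordIdeal {n : ℕ} (P : MvPolynomial (Vars n) ℤ) (s : ℕ) : Ideal (MvPolynomial (Vars n) ℤ) :=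
  Ideal.span {Q | ∃ t ≤ s, Q ∈ words P t}

lemma mem_wordIdeal {n : ℕ} {P : MvPolynomial (Vars n) ℤ} {s t : ℕ} (h : t ≤ s)
    {G : MvPolynomial (Vars n) ℤ} (hG : G ∈ words P t) : G ∈ wordIdeal P s :=
  Ideal.subset_span ⟨t, h, hG⟩

lemma stable_step {n : ℕ} (γ : Vars n → ℂ) (P : MvPolynomial (Vars n) ℤ) (j : ℕ)
    (h : ∀ G ∈ words P (j + 1), ∃ A, aeval γ A ≠ 0 ∧ A * G ∈ wordIdeal P j) :
    ∀ x ∈ wordIdeal P j, ∀ i, ∃ A, aeval γ A ≠ 0 ∧ A * D i x ∈ wordIdeal P j := by
  intro x hx i
  refine Submodule.span_induction (p := fun x _ => ∃ A, aeval γ A ≠ 0 ∧ A * D i x ∈ wordIdeal P j)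
    ?_ ?_ ?_ ?_ hx
  · rintro G ⟨t, ht, hG⟩
    rcases Nat.lt_or_ge t j with hlt | hge
    · refine ⟨1, by simp, ?_⟩
      rw [one_mul]
      exact mem_wordIdeal (t := t + 1) hlt ⟨G, hG, i, rfl⟩
    · have : t = j := le_antisymm ht hge
      subst this
      exact h _ ⟨G, hG, i, rfl⟩
  · exact ⟨1, by simp, by simp⟩
  · rintro x y _ _ ⟨A, hA, hA'⟩ ⟨B, hB, hB'⟩
    refine ⟨A * B, by rw [map_mul]; exact mul_ne_zero hA hB, ?_⟩
    rw [map_add, mul_add]
    refine Ideal.add_mem _ ?_ ?_
    · rw [mul_comm A B, mul_assoc]; exact Ideal.mul_mem_left _ _ hA'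
    · rw [mul_assoc]; exact Ideal.mul_mem_left _ _ hB'
  · rintro r x hx ⟨A, hA, hA'⟩
    refine ⟨A, hA, ?_⟩
    rw [smul_eq_mul, Derivation.leibniz, smul_eq_mul, smul_eq_mul, mul_add]
    refine Ideal.add_mem _ ?_ ?_
    · rw [← mul_assoc, mul_comm A r, mul_assoc]; exact Ideal.mul_mem_left _ _ hA'
    · rw [mul_comm x, ← mul_assoc]; exact Ideal.mul_mem_left _ _ hx

lemma all_words {n : ℕ} (γ : Vars n → ℂ) (P : MvPolynomial (Vars n) ℤ) (j : ℕ)
    (h : ∀ G ∈ words P (j + 1), ∃ A, aeval γ A ≠ 0 ∧ A * G ∈ wordIdeal P j) :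
    ∀ t, ∀ G ∈ words P t, ∃ A, aeval γ A ≠ 0 ∧ A * G ∈ wordIdeal P j := by
  intro t
  induction t with
  | zero => intro G hG; exact ⟨1, by simp, by rw [one_mul]; exact mem_wordIdeal (Nat.zero_le _) hG⟩
  | succ t ih =>
    rintro _ ⟨G, hG, i, rfl⟩
    obtain ⟨A, hA, hA'⟩ := ih G hG
    obtain ⟨B, hB, hB'⟩ := stable_step γ P j h _ hA' i
    refine ⟨A * B * A, by rw [map_mul, map_mul]; exact mul_ne_zero (mul_ne_zero hA hB) hA, ?_⟩
    rw [Derivation.leibniz, smul_eq_mul, smul_eq_mul, mul_add] at hB'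
    have h1 : A * B * A * D i G = A * (B * (A * D i G) + B * (G * D i A)) - (B * D i A) * (A * G) := by
      ring
    rw [h1]
    exact Ideal.sub_mem _ (Ideal.mul_mem_left _ _ hB') (Ideal.mul_mem_left _ _ hA')

/-- key algebraic step: as long as all words of length `≤ j` vanish at `γ`, some word of length
`j + 1` is not in the localisation of the ideal generated by the shorter ones. -/
lemma exists_new_word {n : ℕ} (γ : Vars n → ℂ) (hα : ∀ i, γ (Sum.inr i) ≠ 0)
    (P : MvPolynomial (Vars n) ℤ) (hP : P ≠ 0) (j : ℕ)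
    (hv : ∀ t ≤ j, ∀ G ∈ words P t, aeval γ G = 0) :
    ∃ G ∈ words P (j + 1), ∀ A, aeval γ A ≠ 0 → A * G ∉ wordIdeal P j := by
  by_contra hcon
  push Not at hcon
  have h1 := all_words γ P j hcon
  have hI : ∀ x ∈ wordIdeal P j, aeval γ x = 0 := by
    intro x hx
    refine Submodule.span_induction (p := fun x _ => aeval γ x = 0) ?_ ?_ ?_ ?_ hx
    · rintro G ⟨t, ht, hG⟩; exact hv t ht G hG
    · simp
    · intro x y _ _ hx hy; rw [map_add, hx, hy, add_zero]
    · intro r x _ hx; rw [smul_eq_mul, map_mul, hx, mul_zero]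
  have h2 : ∀ t, ∀ G ∈ words P t, aeval γ G = 0 := by
    intro t G hG
    obtain ⟨A, hA, hA'⟩ := h1 t G hG
    have h3 := hI _ hA'
    rw [map_mul] at h3
    exact (mul_eq_zero.mp h3).resolve_left hA
  have h3 := eq_zero_of_stable γ hα {Q | ∃ t, Q ∈ words P t}
    (by rintro Q ⟨t, ht⟩ i; exact ⟨t + 1, Q, ht, i, rfl⟩)
    (by rintro Q ⟨t, ht⟩; exact h2 t Q ht) P ⟨0, rfl⟩
  exact hP h3

lemma words_inBox {n : ℕ} {δ T : ℕ} {P : MvPolynomial (Vars n) ℤ} (h : InBox (δ + 1) T P) :
    ∀ t, ∀ G ∈ words P t, InBox (δ + 1) ((2 * δ) ^ t * T) G := by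
  intro t
  induction t with
  | zero => rintro G rfl; simpa using h
  | succ t ih =>
    rintro _ ⟨G, hG, i, rfl⟩
    have := (ih G hG).D i
    refine this.mono le_rfl (le_of_eq ?_)
    ring

/-- The zero estimate. -/
theorem zero_estimate {n : ℕ} (γ : Vars n → ℂ) (hα : ∀ i, γ (Sum.inr i) ≠ 0)
    (P : MvPolynomial (Vars n) ℤ) (hP : P ≠ 0) (K δ T H H' : ℕ) (hδ : 1 ≤ δ)
    (hbox : InBox (δ + 1) H P)
    (hmin : ∀ R : MvPolynomial (Vars n) ℤ, R ≠ 0 → InBox δ (2 * T) R → aeval γ R ≠ 0)
    (hH' : K * (δ ^ (2 * n) * ((2 * δ) ^ K * H * T)) ≤ H')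
    (hbig : (2 * H' + 1) ^ ((2 * δ) ^ (2 * n)) < (2 * T + 1) ^ (δ ^ (2 * n) * K)) :
    ∃ t < K, ∃ G ∈ words P t, aeval γ G ≠ 0 := by
  classical
  by_contra hcon
  push Not at hcon
  -- choose the new words
  have hG : ∀ s : ℕ, s < K → ∃ G ∈ words P s, ∀ A, A ≠ 0 → InBox δ (2 * T) A →
      (s = 0 → A * G ≠ 0) ∧ (∀ r, s = r + 1 → A * G ∉ wordIdeal P r) := by
    intro s hs
    rcases s with _ | s
    · refine ⟨P, rfl, fun A hA _ => ⟨fun _ => mul_ne_zero hA hP, fun r hr => by omega⟩⟩
    · obtain ⟨G, hG, hG'⟩ := exists_new_word γ hα P hP s (fun t ht G hG => hcon t (by omega) G hG)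
      refine ⟨G, hG, fun A hA hA' => ⟨fun h => by omega, fun r hr => ?_⟩⟩
      have : r = s := by omega
      subst this
      exact hG' A (hmin A hA hA')
  choose! G hGw hGn using hG
  -- the two finite sets
  let B : Finset ((Vars n → Fin δ) → ℤ) := Fintype.piFinset fun _ => Finset.Icc (-(T : ℤ)) T
  let Dm : Finset (Fin K → ((Vars n → Fin δ) → ℤ)) := Fintype.piFinset fun _ => B
  let Cd : Finset ((Vars n → Fin (δ + δ)) → ℤ) := Fintype.piFinset fun _ =>
    Finset.Icc (-(H' : ℤ)) H'
  let F : (Fin K → ((Vars n → Fin δ) → ℤ)) → ((Vars n → Fin (δ + δ)) → ℤ) := fun c s =>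
    coeff (expo s) (∑ k : Fin K, G k * toPoly (c k))
  have hbound : ∀ c ∈ Dm, InBox (δ + δ) H' (∑ k : Fin K, G k * toPoly (c k)) := by
    intro c hc
    rw [Fintype.mem_piFinset] at hc
    have h1 : ∀ k ∈ (Finset.univ : Finset (Fin K)), InBox (δ + δ)
        (δ ^ (2 * n) * ((2 * δ) ^ K * H * T)) (G k * toPoly (c k)) := by
      intro k _
      have h2 := words_inBox hbox k (G k) (hGw k k.2)
      have h3 : InBox δ T (toPoly (c k)) := by
        refine toPoly_inBox _ fun s => ?_
        have := hc k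
        rw [Fintype.mem_piFinset] at this
        have := this s
        rw [Finset.mem_Icc] at this
        exact abs_le.mpr this
      refine (h2.mul h3).mono le_rfl ?_
      refine Nat.mul_le_mul_left _ (Nat.mul_le_mul_right _ (Nat.mul_le_mul_right _ ?_))
      exact Nat.pow_le_pow_right (by omega) k.2.le
    refine (InBox.sum _ _ _ h1).mono le_rfl ?_
    rw [Finset.sum_const, Finset.card_univ, Fintype.card_fin, smul_eq_mul]
    exact hH'
  have hmaps : ∀ c ∈ Dm, F c ∈ Cd := by
    intro c hc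
    rw [Fintype.mem_piFinset]
    intro s
    rw [Finset.mem_Icc]
    exact abs_le.mp ((hbound c hc).2 _)
  have hinj : Set.InjOn F Dm := by
    intro c hc c' hc' hcc'
    have hc1 := hbound c hc
    have hc2 := hbound c' hc'
    have heq : ∑ k : Fin K, G k * toPoly (c k) = ∑ k : Fin K, G k * toPoly (c' k) :=
      hc1.eq_of_coeff hc2 (fun s => congrFun hcc' s)
    by_contra hne
    have hne' : (Finset.univ.filter fun k : Fin K => c k ≠ c' k).Nonempty := by
      by_contra hemp
      rw [Finset.not_nonempty_iff_eq_empty, Finset.filter_eq_empty_iff] at hemp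
      apply hne
      funext k
      have := hemp (Finset.mem_univ k)
      simpa using this
    set k0 := (Finset.univ.filter fun k : Fin K => c k ≠ c' k).max' hne' with hk0
    have hk0mem := Finset.max'_mem _ hne'
    rw [← hk0, Finset.mem_filter] at hk0mem
    have hk0max : ∀ k, k0 < k → c k = c' k := by
      intro k hk
      by_contra hck
      have := Finset.le_max' (Finset.univ.filter fun k : Fin K => c k ≠ c' k) k
        (by rw [Finset.mem_filter]; exact ⟨Finset.mem_univ _, hck⟩)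
      rw [← hk0] at this
      exact absurd hk (not_lt.mpr this)
    set A := toPoly (fun s => c k0 s - c' k0 s) with hA
    have hA0 : A ≠ 0 := by
      intro h0
      apply hk0mem.2
      funext s
      have := coeff_toPoly (fun s => c k0 s - c' k0 s) s
      rw [← hA, h0, coeff_zero] at this
      omega
    have hAbox : InBox δ (2 * T) A := by
      refine toPoly_inBox _ fun s => ?_
      rw [Finset.mem_coe, Fintype.mem_piFinset] at hc hc'
      have h1 := hc k0
      have h2 := hc' k0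
      rw [Fintype.mem_piFinset] at h1 h2
      have h1 := h1 s
      have h2 := h2 s
      rw [Finset.mem_Icc] at h1 h2
      rw [abs_le]
      push_cast
      constructor <;> linarith [h1.1, h1.2, h2.1, h2.2]
    have hprod := hGn k0 k0.2 A hA0 hAbox
    have hsum : ∑ k : Fin K, G k * toPoly (fun s => c k s - c' k s) = 0 := by
      have h1 : ∑ k : Fin K, G k * toPoly (fun s => c k s - c' k s) =
          ∑ k : Fin K, G k * toPoly (c k) - ∑ k : Fin K, G k * toPoly (c' k) := by
        rw [← Finset.sum_sub_distrib]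
        refine Finset.sum_congr rfl fun k _ => ?_
        rw [← toPoly_sub, mul_sub]
      rw [h1, heq, sub_self]
    have hsplit : A * G k0 = -∑ k ∈ Finset.univ.filter (fun k : Fin K => k < k0),
        G k * toPoly (fun s => c k s - c' k s) := by
      rw [← Finset.sum_filter_add_sum_filter_not Finset.univ (fun k : Fin K => k < k0)] at hsum
      have h2 : ∑ k ∈ Finset.univ.filter (fun k : Fin K => ¬ k < k0),
          G k * toPoly (fun s => c k s - c' k s) = A * G k0 := by
        rw [Finset.sum_eq_single k0]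
        · rw [hA, mul_comm]
        · intro k hk hkk
          rw [Finset.mem_filter] at hk
          have hlt : k0 < k := lt_of_le_of_ne (not_lt.mp hk.2) (Ne.symm hkk)
          have := hk0max k hlt
          have h3 : (fun s => c k s - c' k s) = fun _ => 0 := by
            funext s; rw [this, sub_self]
          rw [h3]
          have h4 : toPoly (n := n) (e := δ) (fun _ => 0) = 0 := by
            simp [toPoly]
          rw [h4, mul_zero]
        · intro h
          exfalso; apply h
          rw [Finset.mem_filter]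
          exact ⟨Finset.mem_univ _, lt_irrefl _⟩
      rw [h2] at hsum
      exact eq_neg_of_add_eq_zero_right hsum
    rcases Nat.eq_zero_or_pos (k0 : ℕ) with hz | hpos
    · apply hprod.1 hz
      rw [hsplit]
      rw [Finset.sum_eq_zero, neg_zero]
      intro k hk
      rw [Finset.mem_filter] at hk
      have : (k : ℕ) < k0 := hk.2
      omega
    · obtain ⟨r, hr⟩ : ∃ r, (k0 : ℕ) = r + 1 := ⟨k0 - 1, by omega⟩
      apply hprod.2 r hr
      rw [hsplit]
      refine (wordIdeal P r).neg_mem ((wordIdeal P r).sum_mem fun k hk => ?_)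
      rw [Finset.mem_filter] at hk
      have : (k : ℕ) < k0 := hk.2
      exact Ideal.mul_mem_right _ _ (mem_wordIdeal (by omega) (hGw k k.2))
  have hcard := Finset.card_le_card_of_injOn F hmaps hinj
  have hcardD : Dm.card = (2 * T + 1) ^ (δ ^ (2 * n) * K) := by
    have h1 : (((T : ℤ) + 1) - (-(T : ℤ))).toNat = 2 * T + 1 := by omega
    simp only [Dm, B, Fintype.card_piFinset, Finset.prod_const, Finset.card_univ, Int.card_Icc,
      Fintype.card_fin, Fintype.card_fun, Fintype.card_sum, h1, ← pow_mul, two_mul n]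
  have hcardC : Cd.card = (2 * H' + 1) ^ ((2 * δ) ^ (2 * n)) := by
    have h1 : (((H' : ℤ) + 1) - (-(H' : ℤ))).toNat = 2 * H' + 1 := by omega
    simp only [Cd, Fintype.card_piFinset, Finset.prod_const, Finset.card_univ, Int.card_Icc,
      Fintype.card_fun, Fintype.card_fin, Fintype.card_sum, h1, two_mul n, two_mul δ]
  rw [hcardD, hcardC] at hcard
  exact absurd hcard (not_le.mpr hbig)

end Pool.Agent.H334R2
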