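import Mathlib
import Pool.Agent.H334R2.Siegel
import Pool.Agent.H334R2.ZeroEst

namespace Pool.Agent.H334R2

open MvPolynomial

lemma aeval_ne_zero_of_box_one {n T : ℕ} {P : MvPolynomial (Vars n) ℤ} (h : InBox 1 T P)
    (hP : P ≠ 0) (γ : Vars n → ℂ) : aeval γ P ≠ 0 := by
  have h1 : P = C (coeff 0 P) := by
    ext s
    rw [coeff_C]
    split_ifs with hs
    · rw [← hs]
    · by_contra hne
      apply hs
      ext j
      have := h.1 s hne j
      simp only [Finsupp.coe_zero, Pi.zero_apply]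
      omega
  have h2 : coeff 0 P ≠ 0 := by
    intro h0; apply hP; rw [h1, h0, C_0]
  rw [h1]
  simpa using h2

lemma nat_add_one_le_exp (m : ℕ) : ((m : ℝ) + 1) ≤ Real.exp m := Real.add_one_le_exp _

lemma two_mul_le_exp (m : ℕ) : (2 * (m : ℝ)) ≤ Real.exp m := by
  rcases Nat.eq_zero_or_pos m with h | h
  · subst h; simp
  · have h1 : (m : ℝ) - 1 + 1 ≤ Real.exp ((m : ℝ) - 1) := Real.add_one_le_exp _
    have h2 : Real.exp m = Real.exp ((m : ℝ) - 1) * Real.exp 1 := by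
      rw [← Real.exp_add]; ring_nf
    have h3 : (2 : ℝ) ≤ Real.exp 1 := by
      have := Real.add_one_le_exp (1 : ℝ); linarith
    rw [h2]
    have h4 : (0 : ℝ) ≤ m := by positivity
    nlinarith [Real.exp_pos ((m : ℝ) - 1)]

lemma thirtytwo_lt_exp : (32 : ℝ) < Real.exp 4 := by
  have h1 : (2.7 : ℝ) < Real.exp 1 := by
    have := Real.exp_one_gt_d9; linarith
  have h2 : Real.exp 4 = Real.exp 1 ^ 4 := by
    rw [← Real.exp_nat_mul]; norm_num
  rw [h2]
  calc (32 : ℝ) < 2.7 ^ 4 := by norm_num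
    _ ≤ Real.exp 1 ^ 4 := pow_le_pow_left₀ (by norm_num) h1.le _

lemma six_le_exp : (6 : ℝ) ≤ Real.exp 2 := by
  have h1 : (2.7 : ℝ) < Real.exp 1 := by
    have := Real.exp_one_gt_d9; linarith
  have h2 : Real.exp 2 = Real.exp 1 ^ 2 := by
    rw [← Real.exp_nat_mul]; norm_num
  rw [h2]
  nlinarith

theorem arith_main (n : ℕ) : ∃ C : ℝ, 0 < C ∧ ∀ (K : Type) [Field K] [NumberField K]
    (φ : K →ₐ[ℚ] ℂ) (x : Vars n → K) (M : ℝ)
    (_ : ∀ j, Module.finrank ℚ K * absLogHeight (φ (x j)) ≤ M)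
    (_ : ∀ i, φ (x (Sum.inr i)) ≠ 0) (_ : (Module.finrank ℚ K : ℝ) ≤ M)
    (δs : ℕ) (_ : 4 * Module.finrank ℚ K ≤ (δs + 1) ^ (2 * n)) (_ : 1 ≤ δs),
    ∃ (Q : MvPolynomial (Vars n) ℤ) (i : Fin n),
      InBox (δs + 1) ⌊Real.exp (C * (M / Module.finrank ℚ K) * δs)⌋₊ Q ∧
      InBox (δs + 1) ⌊Real.exp (C * (M / Module.finrank ℚ K) * δs)⌋₊ (D i Q) ∧
      InBox (δs + 1) ⌊Real.exp (C * (M / Module.finrank ℚ K) * δs)⌋₊ (D i (D i Q)) ∧
      aeval (fun j => φ (x j)) Q = 0 ∧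
      Real.exp (-(C * M * δs)) ≤ ‖aeval (fun j => φ (x j)) (D i Q)‖ := by
  classical
  set Kc : ℕ := 4 ^ (n + 1) with hKc
  have hKcpos : 0 < Kc := by positivity
  have hKcR : (1 : ℝ) ≤ Kc := by exact_mod_cast hKcpos
  set C1 : ℝ := 8 + 4 * Kc + 4 * n with hC1
  have hnR : (0 : ℝ) ≤ n := by positivity
  have hC1pos : 0 < C1 := by positivity
  refine ⟨4 * n + Kc + 2 * C1, by positivity, ?_⟩
  intro K _ _ φ x M hM hα hdM δs h4d hδs
  set d := Module.finrank ℚ K with hd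
  have hdpos : 0 < d := Module.finrank_pos
  have hdR : (1 : ℝ) ≤ d := by exact_mod_cast hdpos
  have hd0 : (0 : ℝ) < d := by linarith
  have hMpos : 0 < M := by linarith
  have hMd : 1 ≤ M / d := by rwa [one_le_div hd0]
  set τ : ℝ := 1 + M / d with hτ
  have hτ1 : 1 ≤ τ := by linarith
  have hdτ : d * τ = d + M := by rw [hτ]; field_simp
  have hδsR : (1 : ℝ) ≤ δs := by exact_mod_cast hδs
  set γ : Vars n → ℂ := fun j => φ (x j) with hγ
  let E : ℕ → ℕ := fun δ => ⌊Real.exp (C1 * τ * δ)⌋₊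
  have hE : ∀ δ, (E δ : ℝ) ≤ Real.exp (C1 * τ * δ) := fun δ => Nat.floor_le (Real.exp_pos _).le
  -- existence for δs
  have hVan : ∃ δ, ∃ P : MvPolynomial (Vars n) ℤ, P ≠ 0 ∧ InBox (δ + 1) (E δ) P ∧
      aeval γ P = 0 := by
    refine ⟨δs, ?_⟩
    set a : ℝ := 2 * n * δs * M / d with ha
    have ha0 : 0 ≤ a := by positivity
    obtain ⟨P, hP0, hPbox, hPv⟩ := siegel φ x M hM δs (⌊2 * Real.exp a⌋₊ + 1) h4d
      (by push_cast; exact Nat.lt_floor_add_one _)
    refine ⟨P, hP0, hPbox.mono le_rfl ?_, hPv⟩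
    refine Nat.le_floor ?_
    have h1 : ((⌊2 * Real.exp a⌋₊ + 1 : ℕ) : ℝ) ≤ 3 * Real.exp a := by
      push_cast
      have h2 := Nat.floor_le (show 0 ≤ 2 * Real.exp a by positivity)
      have h3 : 1 ≤ Real.exp a := Real.one_le_exp ha0
      linarith
    have h2 : ((δs : ℝ) + 1) ^ (2 * n) ≤ Real.exp (2 * n * δs) := by
      calc ((δs : ℝ) + 1) ^ (2 * n) ≤ (Real.exp δs) ^ (2 * n) :=
            pow_le_pow_left₀ (by positivity) (nat_add_one_le_exp δs) _
        _ = Real.exp (2 * n * δs) := by rw [← Real.exp_nat_mul]; push_cast; rfl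
    calc ((2 * (δs + 1) ^ (2 * n) * (⌊2 * Real.exp a⌋₊ + 1) : ℕ) : ℝ)
        = 2 * ((δs : ℝ) + 1) ^ (2 * n) * ((⌊2 * Real.exp a⌋₊ + 1 : ℕ) : ℝ) := by push_cast; ring
      _ ≤ 2 * Real.exp (2 * n * δs) * (3 * Real.exp a) := by
          refine mul_le_mul ?_ h1 (by positivity) (by positivity)
          exact mul_le_mul_of_nonneg_left h2 (by norm_num)
      _ = 6 * (Real.exp (2 * n * δs) * Real.exp a) := by ring
      _ ≤ Real.exp 2 * (Real.exp (2 * n * δs) * Real.exp a) :=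
          mul_le_mul_of_nonneg_right six_le_exp (by positivity)
      _ = Real.exp (2 + (2 * n * δs + a)) := by rw [Real.exp_add, Real.exp_add]
      _ ≤ Real.exp (C1 * τ * δs) := by
          refine Real.exp_le_exp.mpr ?_
          have h5 : a = 2 * n * (M / d) * δs := by rw [ha]; ring
          have h6 : C1 * τ * δs = C1 * δs + C1 * (M / d) * δs := by rw [hτ]; ring
          rw [h5, h6]
          have h7 : (2 : ℝ) + 2 * n * δs ≤ C1 * δs := by
            have : C1 * δs = (8 + 4 * Kc + 4 * n) * δs := by rw [hC1]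
            nlinarith
          have h8 : 2 * n * (M / d) * δs ≤ C1 * (M / d) * δs := by
            refine mul_le_mul_of_nonneg_right (mul_le_mul_of_nonneg_right ?_ (by positivity))
              (by positivity)
            rw [hC1]; nlinarith
          linarith
  set δ1 := Nat.find hVan with hδ1
  obtain ⟨P, hP0, hPbox, hPv⟩ := Nat.find_spec hVan
  rw [← hδ1] at hPbox
  have hδ1min : ∀ m < δ1, ¬ ∃ P : MvPolynomial (Vars n) ℤ, P ≠ 0 ∧ InBox (m + 1) (E m) P ∧
      aeval γ P = 0 := fun m hm => Nat.find_min hVan hm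
  have hδ1s : δ1 ≤ δs := by
    -- redo minimality at δs
    by_contra hcon
    push Not at hcon
    apply hδ1min δs hcon
    set a : ℝ := 2 * n * δs * M / d with ha
    have ha0 : 0 ≤ a := by positivity
    obtain ⟨P, hP0, hPbox, hPv⟩ := siegel φ x M hM δs (⌊2 * Real.exp a⌋₊ + 1) h4d
      (by push_cast; exact Nat.lt_floor_add_one _)
    refine ⟨P, hP0, hPbox.mono le_rfl ?_, hPv⟩
    refine Nat.le_floor ?_
    have h1 : ((⌊2 * Real.exp a⌋₊ + 1 : ℕ) : ℝ) ≤ 3 * Real.exp a := by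
      push_cast
      have h2 := Nat.floor_le (show 0 ≤ 2 * Real.exp a by positivity)
      have h3 : 1 ≤ Real.exp a := Real.one_le_exp ha0
      linarith
    have h2 : ((δs : ℝ) + 1) ^ (2 * n) ≤ Real.exp (2 * n * δs) := by
      calc ((δs : ℝ) + 1) ^ (2 * n) ≤ (Real.exp δs) ^ (2 * n) :=
            pow_le_pow_left₀ (by positivity) (nat_add_one_le_exp δs) _
        _ = Real.exp (2 * n * δs) := by rw [← Real.exp_nat_mul]; push_cast; rfl
    calc ((2 * (δs + 1) ^ (2 * n) * (⌊2 * Real.exp a⌋₊ + 1) : ℕ) : ℝ)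
        = 2 * ((δs : ℝ) + 1) ^ (2 * n) * ((⌊2 * Real.exp a⌋₊ + 1 : ℕ) : ℝ) := by push_cast; ring
      _ ≤ 2 * Real.exp (2 * n * δs) * (3 * Real.exp a) := by
          refine mul_le_mul ?_ h1 (by positivity) (by positivity)
          exact mul_le_mul_of_nonneg_left h2 (by norm_num)
      _ = 6 * (Real.exp (2 * n * δs) * Real.exp a) := by ring
      _ ≤ Real.exp 2 * (Real.exp (2 * n * δs) * Real.exp a) :=
          mul_le_mul_of_nonneg_right six_le_exp (by positivity)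
      _ = Real.exp (2 + (2 * n * δs + a)) := by rw [Real.exp_add, Real.exp_add]
      _ ≤ Real.exp (C1 * τ * δs) := by
          refine Real.exp_le_exp.mpr ?_
          have h5 : a = 2 * n * (M / d) * δs := by rw [ha]; ring
          have h6 : C1 * τ * δs = C1 * δs + C1 * (M / d) * δs := by rw [hτ]; ring
          rw [h5, h6]
          have h7 : (2 : ℝ) + 2 * n * δs ≤ C1 * δs := by
            have : C1 * δs = (8 + 4 * Kc + 4 * n) * δs := by rw [hC1]
            nlinarith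
          have h8 : 2 * n * (M / d) * δs ≤ C1 * (M / d) * δs := by
            refine mul_le_mul_of_nonneg_right (mul_le_mul_of_nonneg_right ?_ (by positivity))
              (by positivity)
            rw [hC1]; nlinarith
          linarith
  have hδ1pos : 1 ≤ δ1 := by
    by_contra hcon
    have h0 : δ1 = 0 := by omega
    rw [h0] at hPbox
    exact aeval_ne_zero_of_box_one hPbox hP0 γ hPv
  have hδ1R : (1 : ℝ) ≤ δ1 := by exact_mod_cast hδ1pos
  set u : ℝ := C1 * τ * δ1 / 2 with hu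
  set T : ℕ := ⌊Real.exp u / 2⌋₊ with hT
  have hTle : (T : ℝ) ≤ Real.exp u / 2 := Nat.floor_le (by positivity)
  have hTgt : Real.exp u / 2 < T + 1 := Nat.lt_floor_add_one _
  have hmin : ∀ R : MvPolynomial (Vars n) ℤ, R ≠ 0 → InBox δ1 (2 * T) R → aeval γ R ≠ 0 := by
    intro R hR0 hRbox hRv
    rcases Nat.lt_or_ge δ1 2 with h2 | h2
    · have : δ1 = 1 := by omega
      rw [this] at hRbox
      exact aeval_ne_zero_of_box_one hRbox hR0 γ hRv
    · obtain ⟨m, hm⟩ : ∃ m, δ1 = m + 1 := ⟨δ1 - 1, by omega⟩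
      apply hδ1min m (by omega)
      refine ⟨R, hR0, ?_, hRv⟩
      rw [hm] at hRbox
      refine hRbox.mono le_rfl (Nat.le_floor ?_)
      push_cast
      have h3 : Real.exp u ≤ Real.exp (C1 * τ * m) := by
        refine Real.exp_le_exp.mpr ?_
        rw [hu]
        have h4 : (δ1 : ℝ) / 2 ≤ m := by
          have : (1 : ℝ) ≤ m := by
            have : 1 ≤ m := by omega
            exact_mod_cast this
          rw [hm]; push_cast; linarith
        have h5 : C1 * τ * δ1 / 2 = C1 * τ * (δ1 / 2) := by ring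
        rw [h5]
        exact mul_le_mul_of_nonneg_left h4 (by positivity)
      linarith
  set H := E δ1 with hH
  have hHle : (H : ℝ) ≤ Real.exp (2 * u) := by
    refine (hE δ1).trans (le_of_eq ?_)
    congr 1; rw [hu]; ring
  have h2δ : (2 * (δ1 : ℝ)) ≤ Real.exp δ1 := two_mul_le_exp δ1
  have hδe : (δ1 : ℝ) ≤ Real.exp δ1 := by
    have := nat_add_one_le_exp δ1; linarith
  have hu1 : C1 ≤ 2 * u := by
    rw [hu]
    have h1 : 1 ≤ τ * δ1 := by nlinarith
    nlinarith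
  have hexpu : 2 ≤ Real.exp u := by
    have h1 : 1 ≤ u := by
      have : (8 : ℝ) ≤ C1 := by rw [hC1]; nlinarith
      linarith
    have := Real.add_one_le_exp u
    linarith
  have hW : (32 : ℝ) * (Kc * (δ1 ^ (2 * n) * (2 * δ1) ^ Kc)) < Real.exp u := by
    have h1 : (Kc : ℝ) ≤ Real.exp (Kc * δ1) := by
      have h2 : (Kc : ℝ) ≤ Real.exp Kc := by
        have := nat_add_one_le_exp Kc; linarith
      refine h2.trans (Real.exp_le_exp.mpr ?_)
      nlinarith
    have h2 : (δ1 : ℝ) ^ (2 * n) ≤ Real.exp (2 * n * δ1) := by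
      calc (δ1 : ℝ) ^ (2 * n) ≤ (Real.exp δ1) ^ (2 * n) :=
            pow_le_pow_left₀ (by positivity) hδe _
        _ = Real.exp (2 * n * δ1) := by rw [← Real.exp_nat_mul]; push_cast; rfl
    have h3 : (2 * (δ1 : ℝ)) ^ Kc ≤ Real.exp (Kc * δ1) := by
      calc (2 * (δ1 : ℝ)) ^ Kc ≤ (Real.exp δ1) ^ Kc :=
            pow_le_pow_left₀ (by positivity) h2δ _
        _ = Real.exp (Kc * δ1) := by rw [← Real.exp_nat_mul]
    have h4 : (32 : ℝ) < Real.exp (4 * δ1) := by
      refine thirtytwo_lt_exp.trans_le (Real.exp_le_exp.mpr ?_)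
      linarith
    calc (32 : ℝ) * (Kc * (δ1 ^ (2 * n) * (2 * δ1) ^ Kc))
        < Real.exp (4 * δ1) * (Kc * (δ1 ^ (2 * n) * (2 * δ1) ^ Kc)) :=
          mul_lt_mul_of_pos_right h4 (by positivity)
      _ ≤ Real.exp (4 * δ1) * (Real.exp (Kc * δ1) * (Real.exp (2 * n * δ1) *
          Real.exp (Kc * δ1))) := by
          refine mul_le_mul_of_nonneg_left ?_ (Real.exp_pos _).le
          refine mul_le_mul h1 ?_ (by positivity) (by positivity)
          exact mul_le_mul h2 h3 (by positivity) (by positivity)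
      _ = Real.exp (4 * δ1 + (Kc * δ1 + (2 * n * δ1 + Kc * δ1))) := by
          rw [Real.exp_add, Real.exp_add, Real.exp_add]
      _ ≤ Real.exp u := by
          refine Real.exp_le_exp.mpr ?_
          have h5 : 4 * δ1 + (Kc * δ1 + (2 * n * δ1 + Kc * δ1)) = C1 * δ1 / 2 := by
            rw [hC1]; ring
          rw [h5, hu]
          have h6 : C1 * δ1 / 2 = C1 * 1 * δ1 / 2 := by ring
          rw [h6]
          have h7 : C1 * 1 * δ1 ≤ C1 * τ * δ1 :=
            mul_le_mul_of_nonneg_right (mul_le_mul_of_nonneg_left hτ1 hC1pos.le) (by positivity)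
          linarith
  set H' := Kc * (δ1 ^ (2 * n) * ((2 * δ1) ^ Kc * H * T)) with hH'
  have hlt4 : 2 * H' + 1 < (2 * T + 1) ^ 4 := by
    have hWR : (1 : ℝ) ≤ Kc * (δ1 ^ (2 * n) * (2 * δ1) ^ Kc) := by
      have ha : (1 : ℝ) ≤ (δ1 : ℝ) ^ (2 * n) := one_le_pow₀ hδ1R
      have hb : (1 : ℝ) ≤ (2 * (δ1 : ℝ)) ^ Kc := one_le_pow₀ (by linarith)
      have hc : (1 : ℝ) ≤ (δ1 : ℝ) ^ (2 * n) * (2 * (δ1 : ℝ)) ^ Kc := by nlinarith
      nlinarith
    set W : ℝ := Kc * (δ1 ^ (2 * n) * (2 * δ1) ^ Kc) with hWdef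
    have h1 : (H' : ℝ) ≤ W * (Real.exp (2 * u) * (Real.exp u / 2)) := by
      have : (H' : ℝ) = W * (H * T) := by rw [hH', hWdef]; push_cast; ring
      rw [this]
      refine mul_le_mul_of_nonneg_left ?_ (by linarith)
      exact mul_le_mul hHle hTle (by positivity) (by positivity)
    have h2 : Real.exp (2 * u) * (Real.exp u / 2) = Real.exp (3 * u) / 2 := by
      rw [← mul_div_assoc, ← Real.exp_add]; congr 2; ring
    rw [h2] at h1
    have h3 : (2 * (H' : ℝ) + 1) ≤ 2 * W * Real.exp (3 * u) := by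
      have h4 : (1 : ℝ) ≤ Real.exp (3 * u) := Real.one_le_exp (by
        have : 0 ≤ u := by rw [hu]; positivity
        linarith)
      have h5 : (1 : ℝ) ≤ W * Real.exp (3 * u) := by nlinarith
      nlinarith
    have h4 : Real.exp u / 2 ≤ 2 * T + 1 := by linarith
    have h5 : (Real.exp u / 2) ^ 4 ≤ (2 * (T : ℝ) + 1) ^ 4 := pow_le_pow_left₀ (by positivity) h4 _
    have h6 : (Real.exp u / 2) ^ 4 = Real.exp (3 * u) * Real.exp u / 16 := by
      rw [div_pow, ← Real.exp_nat_mul, ← Real.exp_add]; norm_num; ring_nf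
    have h7 : 2 * W * Real.exp (3 * u) < (Real.exp u / 2) ^ 4 := by
      rw [h6]
      have h8 : 0 < Real.exp (3 * u) := Real.exp_pos _
      nlinarith
    have h9 : (2 * (H' : ℝ) + 1) < (2 * (T : ℝ) + 1) ^ 4 := lt_of_le_of_lt h3 (h7.trans_le h5)
    exact_mod_cast h9
  have hbig : (2 * H' + 1) ^ ((2 * δ1) ^ (2 * n)) < (2 * T + 1) ^ (δ1 ^ (2 * n) * Kc) := by
    have h1 : δ1 ^ (2 * n) * Kc = 4 * (2 * δ1) ^ (2 * n) := by
      rw [hKc, mul_pow, pow_mul 2 2 n, pow_succ]; ring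
    rw [h1, pow_mul (2 * T + 1) 4]
    refine Nat.pow_lt_pow_left hlt4 ?_
    positivity
  obtain ⟨t, htK, hG⟩ := zero_estimate γ hα P hP0 Kc δ1 T H H' hδ1pos hPbox hmin
    (le_of_eq hH'.symm) hbig
  have hex : ∃ t, ∃ G ∈ words P t, aeval γ G ≠ 0 := ⟨t, hG⟩
  set t0 := Nat.find hex with ht0
  have ht0K : t0 < Kc := lt_of_le_of_lt (Nat.find_min' hex hG) htK
  obtain ⟨G, hGw, hGv⟩ := Nat.find_spec hex
  rw [← ht0] at hGw
  have ht0pos : t0 ≠ 0 := by
    intro h0
    rw [h0] at hGw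
    have : G = P := hGw
    rw [this] at hGv
    exact hGv hPv
  obtain ⟨s, hs⟩ : ∃ s, t0 = s + 1 := ⟨t0 - 1, by omega⟩
  rw [hs] at hGw
  obtain ⟨Q, hQw, i, rfl⟩ := hGw
  have hQv : aeval γ Q = 0 := by
    by_contra hne
    have := Nat.find_min' hex ⟨Q, hQw, hne⟩
    omega
  have hQbox := words_inBox hPbox s Q hQw
  have hQbox1 := hQbox.D i
  have hQbox2 := hQbox1.D i
  set TT := (2 * δ1) ^ Kc * H with hTT
  have hle0 : (2 * δ1) ^ s * H ≤ TT :=
    Nat.mul_le_mul_right _ (Nat.pow_le_pow_right (by omega) (by omega))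
  have hle1 : 2 * δ1 * ((2 * δ1) ^ s * H) ≤ TT := by
    have : 2 * δ1 * ((2 * δ1) ^ s * H) = (2 * δ1) ^ (s + 1) * H := by ring
    rw [this]
    exact Nat.mul_le_mul_right _ (Nat.pow_le_pow_right (by omega) (by omega))
  have hle2 : 2 * δ1 * (2 * δ1 * ((2 * δ1) ^ s * H)) ≤ TT := by
    have : 2 * δ1 * (2 * δ1 * ((2 * δ1) ^ s * H)) = (2 * δ1) ^ (s + 2) * H := by ring
    rw [this]
    exact Nat.mul_le_mul_right _ (Nat.pow_le_pow_right (by omega) (by omega))
  have hTTle : (TT : ℝ) ≤ Real.exp ((Kc + C1 * τ) * δ1) := by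
    have h3 : (2 * (δ1 : ℝ)) ^ Kc ≤ Real.exp (Kc * δ1) := by
      calc (2 * (δ1 : ℝ)) ^ Kc ≤ (Real.exp δ1) ^ Kc :=
            pow_le_pow_left₀ (by positivity) h2δ _
        _ = Real.exp (Kc * δ1) := by rw [← Real.exp_nat_mul]
    calc (TT : ℝ) = (2 * (δ1 : ℝ)) ^ Kc * H := by rw [hTT]; push_cast; ring
      _ ≤ Real.exp (Kc * δ1) * Real.exp (C1 * τ * δ1) :=
          mul_le_mul h3 (hE δ1) (by positivity) (by positivity)
      _ = Real.exp ((Kc + C1 * τ) * δ1) := by rw [← Real.exp_add]; congr 1; ring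
  have hδR : (δ1 : ℝ) ≤ δs := by exact_mod_cast hδ1s
  have hτle : τ ≤ 2 * (M / d) := by rw [hτ]; linarith
  have hTTfl : TT ≤ ⌊Real.exp ((4 * n + Kc + 2 * C1) * (M / d) * δs)⌋₊ := by
    refine Nat.le_floor (hTTle.trans (Real.exp_le_exp.mpr ?_))
    have h1 : Kc + C1 * τ ≤ (4 * n + Kc + 2 * C1) * (M / d) := by
      have h2 : C1 * τ ≤ C1 * (2 * (M / d)) := mul_le_mul_of_nonneg_left hτle hC1pos.le
      have h3 : (Kc : ℝ) ≤ Kc * (M / d) := by nlinarith
      have h4 : 0 ≤ 4 * (n : ℝ) * (M / d) := by positivity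
      nlinarith
    exact mul_le_mul h1 hδR (by positivity) (by positivity)
  have hδbox : δ1 + 1 ≤ δs + 1 := by omega
  refine ⟨Q, i, hQbox.mono hδbox (hle0.trans hTTfl), hQbox1.mono hδbox (hle1.trans hTTfl),
    hQbox2.mono hδbox (hle2.trans hTTfl), hQv, ?_⟩
  have hH1 : 1 ≤ H := by
    refine Nat.le_floor ?_
    push_cast
    exact Real.one_le_exp (by positivity)
  have hTT1 : 1 ≤ TT := by
    rw [hTT]
    exact Nat.one_le_iff_ne_zero.mpr (mul_ne_zero (by positivity) (by omega))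
  have hliou := liouville φ x M hM (D i Q) δ1 TT hTT1 (hQbox1.mono le_rfl hle1) hGv
  have h2 : ((δ1 : ℝ) + 1) ^ (2 * n) ≤ Real.exp (2 * n * δ1) := by
    calc ((δ1 : ℝ) + 1) ^ (2 * n) ≤ (Real.exp δ1) ^ (2 * n) :=
          pow_le_pow_left₀ (by positivity) (nat_add_one_le_exp δ1) _
      _ = Real.exp (2 * n * δ1) := by rw [← Real.exp_nat_mul]; push_cast; rfl
  have h3 : (((δ1 : ℝ) + 1) ^ (2 * n) * TT) ^ d ≤ Real.exp ((2 * n + Kc + 2 * C1) * M * δ1) := by
    calc (((δ1 : ℝ) + 1) ^ (2 * n) * TT) ^ d ≤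
          (Real.exp (2 * n * δ1) * Real.exp ((Kc + C1 * τ) * δ1)) ^ d :=
          pow_le_pow_left₀ (by positivity)
            (mul_le_mul h2 hTTle (by positivity) (by positivity)) _
      _ = Real.exp (d * (2 * n * δ1 + (Kc + C1 * τ) * δ1)) := by
          rw [← Real.exp_add, ← Real.exp_nat_mul]
      _ ≤ Real.exp ((2 * n + Kc + 2 * C1) * M * δ1) := by
          refine Real.exp_le_exp.mpr ?_
          have h4 : d * (2 * n * δ1 + (Kc + C1 * τ) * δ1) =
              ((2 * n + Kc) * d + C1 * (d * τ)) * δ1 := by ring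
          rw [h4, hdτ]
          refine mul_le_mul_of_nonneg_right ?_ (by positivity)
          have h5 : (2 * (n : ℝ) + Kc) * d ≤ (2 * n + Kc) * M :=
            mul_le_mul_of_nonneg_left hdM (by positivity)
          have h6 : C1 * (d + M) ≤ C1 * (2 * M) := mul_le_mul_of_nonneg_left (by linarith) hC1pos.le
          nlinarith
  have h4 : 1 ≤ Real.exp (2 * n * δ1 * M) * Real.exp ((2 * n + Kc + 2 * C1) * M * δ1) *
      ‖aeval γ (D i Q)‖ := by
    refine hliou.trans ?_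
    refine mul_le_mul_of_nonneg_right ?_ (norm_nonneg _)
    exact mul_le_mul_of_nonneg_left h3 (Real.exp_pos _).le
  rw [← Real.exp_add] at h4
  have h5 : 2 * n * δ1 * M + (2 * n + Kc + 2 * C1) * M * δ1 ≤ (4 * n + Kc + 2 * C1) * M * δs := by
    have h6 : 2 * n * δ1 * M + (2 * n + Kc + 2 * C1) * M * δ1 =
        (4 * n + Kc + 2 * C1) * M * δ1 := by ring
    rw [h6]
    exact mul_le_mul_of_nonneg_left hδR (by positivity)
  have h6 : 1 ≤ Real.exp ((4 * n + Kc + 2 * C1) * M * δs) * ‖aeval γ (D i Q)‖ :=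
    h4.trans (mul_le_mul_of_nonneg_right (Real.exp_le_exp.mpr h5) (norm_nonneg _))
  rw [Real.exp_neg, inv_le_iff_one_le_mul₀ (Real.exp_pos _)]
  linarith

end Pool.Agent.H334R2
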