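import Mathlib

namespace Pool.Agent.H334R2

open MeasureTheory Set

/-- one-dimensional estimate. -/
theorem volume_small_set {g g' g'' : ℝ → ℝ} (hg : ∀ t, HasDerivAt g (g' t) t)
    (hg' : ∀ t, HasDerivAt g' (g'' t) t) {R M2 η ε : ℝ} (hR : 0 < R) (hM2 : 0 < M2) (hη : 0 < η)
    (hε : 0 ≤ ε) (hb : ∀ t ∈ Icc (-R) R, |g'' t| ≤ M2) :
    volume {t | t ∈ Icc (-R) R ∧ |g t| ≤ ε ∧ η ≤ |g' t|} ≤
      ENNReal.ofReal ((4 * R * M2 / η + 1) * (8 * ε / η)) := by
  set s : ℝ := η / (2 * M2) with hs
  have hspos : 0 < s := by positivity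
  set E := {t | t ∈ Icc (-R) R ∧ |g t| ≤ ε ∧ η ≤ |g' t|} with hE
  -- two points of E at distance at most s are at distance at most 4ε/η
  have hclose : ∀ a ∈ E, ∀ b ∈ E, a < b → b - a ≤ s → b - a ≤ 4 * ε / η := by
    intro a ha b hb' hab hbs
    obtain ⟨c, hc, hceq⟩ := exists_hasDerivAt_eq_slope g g' hab
      (fun t _ => (hg t).continuousAt.continuousWithinAt) (fun t _ => hg t)
    have hba : 0 < b - a := sub_pos.mpr hab
    have h1 : |g b - g a| = |g' c| * (b - a) := by
      rw [hceq, abs_div, abs_of_pos hba]; field_simp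
    have h2 : |g' c - g' a| ≤ M2 * |c - a| := by
      rcases eq_or_lt_of_le (hc.1.le : a ≤ c) with heq | hlt
      · rw [heq]; simp
      · obtain ⟨e, he, heeq⟩ := exists_hasDerivAt_eq_slope g' g'' hlt
          (fun t _ => (hg' t).continuousAt.continuousWithinAt) (fun t _ => hg' t)
        have hca : 0 < c - a := sub_pos.mpr hlt
        have h3 : g' c - g' a = g'' e * (c - a) := by rw [heeq]; field_simp
        rw [h3, abs_mul]
        refine mul_le_mul_of_nonneg_right ?_ (abs_nonneg _)
        refine hb e ⟨?_, ?_⟩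
        · exact ha.1.1.trans he.1.le
        · exact (he.2.le.trans hc.2.le).trans hb'.1.2
    have h3 : |c - a| ≤ s := by
      rw [abs_of_pos (sub_pos.mpr hc.1)]
      linarith [hc.2]
    have h4 : M2 * |c - a| ≤ η / 2 := by
      calc M2 * |c - a| ≤ M2 * s := mul_le_mul_of_nonneg_left h3 hM2.le
        _ = η / 2 := by rw [hs]; field_simp
    have h5 : η / 2 ≤ |g' c| := by
      have h6 := ha.2.2
      have h7 : |g' a| ≤ |g' c| + |g' c - g' a| := by
        have := abs_sub_abs_le_abs_sub (g' a) (g' c)
        rw [abs_sub_comm] at this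
        linarith
      linarith
    have h6 : |g b - g a| ≤ 2 * ε := by
      have := abs_sub (g b) (g a)
      linarith [ha.2.1, hb'.2.1]
    rw [h1] at h6
    rw [le_div_iff₀ hη]
    nlinarith
  -- cover by intervals
  set N : ℕ := ⌊2 * R / s⌋₊ + 1 with hN
  have hcover : E ⊆ ⋃ k ∈ Finset.range N, (E ∩ Ico (-R + k * s) (-R + (k + 1) * s)) := by
    intro t ht
    simp only [mem_iUnion, Finset.mem_range]
    have h0 : 0 ≤ (t + R) / s := div_nonneg (by linarith [ht.1.1]) hspos.le
    refine ⟨⌊(t + R) / s⌋₊, ?_, ht, ?_, ?_⟩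
    · rw [hN, Nat.lt_succ_iff]
      refine Nat.floor_le_floor ?_
      exact div_le_div_of_nonneg_right (by linarith [ht.1.2]) hspos.le
    · have := Nat.floor_le h0
      rw [le_div_iff₀ hspos] at this
      linarith
    · have := Nat.lt_floor_add_one ((t + R) / s)
      rw [div_lt_iff₀ hspos] at this
      linarith
  have hpiece : ∀ k ∈ Finset.range N,
      volume (E ∩ Ico (-R + k * s) (-R + (k + 1) * s)) ≤ ENNReal.ofReal (8 * ε / η) := by
    intro k _
    rcases (E ∩ Ico (-R + k * s) (-R + (k + 1) * s)).eq_empty_or_nonempty with hemp | ⟨t0, ht0⟩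
    · rw [hemp]; simp
    · have hsub : E ∩ Ico (-R + k * s) (-R + (k + 1) * s) ⊆
          Icc (t0 - 4 * ε / η) (t0 + 4 * ε / η) := by
        intro t ht
        have hs1 : |t - t0| ≤ s := by
          rw [abs_le]
          constructor <;> linarith [ht.2.1, ht.2.2, ht0.2.1, ht0.2.2]
        have hnn : 0 ≤ 4 * ε / η := by positivity
        rcases lt_trichotomy t t0 with h | h | h
        · have := hclose t ht.1 t0 ht0.1 h (by rw [abs_le] at hs1; linarith [hs1.1])
          constructor <;> linarith
        · rw [h]; constructor <;> linarith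
        · have := hclose t0 ht0.1 t ht.1 h (by rw [abs_le] at hs1; linarith [hs1.2])
          constructor <;> linarith
      refine (measure_mono hsub).trans (le_of_eq ?_)
      rw [Real.volume_Icc]
      congr 1; ring
  calc volume E ≤ volume (⋃ k ∈ Finset.range N, (E ∩ Ico (-R + k * s) (-R + (k + 1) * s))) :=
        measure_mono hcover
    _ ≤ ∑ k ∈ Finset.range N, volume (E ∩ Ico (-R + k * s) (-R + (k + 1) * s)) :=
        measure_biUnion_finset_le _ _
    _ ≤ ∑ k ∈ Finset.range N, ENNReal.ofReal (8 * ε / η) := Finset.sum_le_sum hpiece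
    _ = N * ENNReal.ofReal (8 * ε / η) := by simp
    _ = ENNReal.ofReal (N * (8 * ε / η)) := by
        rw [ENNReal.ofReal_mul (by positivity), ENNReal.ofReal_natCast]
    _ ≤ ENNReal.ofReal ((4 * R * M2 / η + 1) * (8 * ε / η)) := by
        refine ENNReal.ofReal_le_ofReal ?_
        refine mul_le_mul_of_nonneg_right ?_ (by positivity)
        rw [hN]
        push_cast
        have h1 := Nat.floor_le (show 0 ≤ 2 * R / s by positivity)
        have h2 : 2 * R / s = 4 * R * M2 / η := by rw [hs]; field_simp; ring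
        rw [← h2]
        linarith

/-- Fubini: a set in the cube all of whose slices in direction `i` are small is small. -/
theorem volume_le_of_slices {m : ℕ} (i : Fin (m + 1)) (E : Set (Fin (m + 1) → ℝ))
    (hE : MeasurableSet E) {R : ℝ} (hR : 0 < R) (hsub : ∀ x ∈ E, ∀ j, |x j| ≤ R)
    (b : ENNReal) (hb : ∀ x : Fin (m + 1) → ℝ, volume {t | Function.update x i t ∈ E} ≤ b) :
    volume E ≤ b * ENNReal.ofReal (2 * R) ^ m := by
  let e := MeasurableEquiv.piFinSuccAbove (fun _ : Fin (m + 1) => ℝ) i
  have hmp : MeasurePreserving e volume (volume.prod volume) :=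
    volume_preserving_piFinSuccAbove (fun _ : Fin (m + 1) => ℝ) i
  have hmp' := hmp.symm e
  have h1 : volume E = (volume.prod volume : Measure (ℝ × (Fin m → ℝ))) (e.symm ⁻¹' E) := by
    rw [hmp'.measure_preimage_equiv]
  rw [h1, Measure.prod_apply_symm (e.symm.measurable hE)]
  have h2 : ∀ y : Fin m → ℝ, volume ((fun t : ℝ => (t, y)) ⁻¹' (e.symm ⁻¹' E)) ≤
      (Set.pi univ fun _ : Fin m => Icc (-R) R).indicator (fun _ => b) y := by
    intro y
    by_cases hy : y ∈ (Set.pi univ fun _ : Fin m => Icc (-R) R)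
    · rw [Set.indicator_of_mem hy]
      have h3 : (fun t : ℝ => (t, y)) ⁻¹' (e.symm ⁻¹' E) =
          {t | Function.update (i.insertNth 0 y : Fin (m + 1) → ℝ) i t ∈ E} := by
        ext t
        simp only [mem_preimage, mem_ofPred_eq]
        have h4 : e.symm (t, y) = Function.update (i.insertNth 0 y : Fin (m + 1) → ℝ) i t := by
          rw [Fin.update_insertNth]
          rfl
        rw [h4]
      rw [h3]
      exact hb _
    · rw [Set.indicator_of_notMem hy]
      have h3 : (fun t : ℝ => (t, y)) ⁻¹' (e.symm ⁻¹' E) = ∅ := by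
        rw [Set.eq_empty_iff_forall_notMem]
        intro t ht
        apply hy
        intro j _
        simp only [mem_preimage] at ht
        have h5 := hsub _ ht (i.succAbove j)
        have h4 : e.symm (t, y) (i.succAbove j) = y j := by
          change (i.insertNth t y : Fin (m + 1) → ℝ) (i.succAbove j) = y j
          rw [Fin.insertNth_apply_succAbove]
        rw [h4] at h5
        exact abs_le.mp h5
      rw [h3]; simp
  refine (lintegral_mono h2).trans ?_
  rw [lintegral_indicator (MeasurableSet.univ_pi fun _ => measurableSet_Icc), lintegral_const]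
  refine mul_le_mul_right ?_ b
  rw [Measure.restrict_apply MeasurableSet.univ, univ_inter, volume_pi_pi]
  simp only [Real.volume_Icc, Finset.prod_const, Finset.card_univ, Fintype.card_fin]
  rw [show R - -R = 2 * R by ring]

end Pool.Agent.H334R2
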