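import Mathlib
import Pool.Agent.H334R2.Deriv
import Pool.Agent.H334R2.LeafZero
import Pool.Agent.H334R2.Siegel

namespace Pool.Agent.H334R2

open MvPolynomial

/-- the real point `(x, e^x)`. -/
noncomputable def thr {n : ℕ} (x : Fin n → ℝ) : Vars n → ℝ :=
  Sum.elim x (fun i => Real.exp (x i))

/-- the same point with complex coordinates -/
noncomputable def thc {n : ℕ} (x : Fin n → ℝ) : Vars n → ℂ := fun j => (thr x j : ℂ)

/-- `x ↦ Q(x, e^x)`. -/
noncomputable def fQ {n : ℕ} (Q : MvPolynomial (Vars n) ℤ) (x : Fin n → ℝ) : ℝ :=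
  aeval (thr x) Q

lemma aeval_thc {n : ℕ} (Q : MvPolynomial (Vars n) ℤ) (x : Fin n → ℝ) :
    aeval (thc x) Q = ((fQ Q x : ℝ) : ℂ) := by
  rw [fQ, MvPolynomial.aeval_def, MvPolynomial.aeval_def]
  have h3 := MvPolynomial.eval₂_comp_left (Complex.ofRealHom) (algebraMap ℤ ℝ) (thr x) Q
  rw [show ((eval₂ (algebraMap ℤ ℝ) (thr x) Q : ℝ) : ℂ) =
    Complex.ofRealHom (eval₂ (algebraMap ℤ ℝ) (thr x) Q) from rfl, h3]
  congr 1

lemma norm_aeval_thc {n : ℕ} (Q : MvPolynomial (Vars n) ℤ) (x : Fin n → ℝ) :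
    ‖aeval (thc x) Q‖ = |fQ Q x| := by
  rw [aeval_thc, Complex.norm_real, Real.norm_eq_abs]

lemma hasDerivAt_fQ {n : ℕ} (x : Fin n → ℝ) (i : Fin n) (Q : MvPolynomial (Vars n) ℤ) (t : ℝ) :
    HasDerivAt (fun t => fQ Q (Function.update x i t)) (fQ (D i Q) (Function.update x i t)) t := by
  classical
  induction Q using MvPolynomial.induction_on with
  | C a =>
    have h1 : D i (C a : MvPolynomial (Vars n) ℤ) = 0 := by
      rw [D_apply, pderiv_C, pderiv_C]; simp
    simp only [h1, fQ, map_zero, algHom_C]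
    exact hasDerivAt_const _ _
  | add p q hp hq =>
    simp only [fQ, map_add] at hp hq ⊢
    exact hp.add hq
  | mul_X p j hp =>
    have h2 : HasDerivAt (fun t => thr (Function.update x i t) j)
        (fQ (D i (X j : MvPolynomial (Vars n) ℤ)) (Function.update x i t)) t := by
      rcases j with k | k
      · rw [D_X_inl]
        by_cases h : i = k
        · subst h
          simp only [fQ, thr, Sum.elim_inl, Function.update_self, if_true, map_one]
          exact hasDerivAt_id' t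
        · simp only [fQ, thr, Sum.elim_inl, Function.update_of_ne (Ne.symm h), if_neg h, map_zero]
          exact hasDerivAt_const _ _
      · rw [D_X_inr]
        by_cases h : i = k
        · subst h
          simp only [fQ, thr, Sum.elim_inr, Function.update_self, if_true, aeval_X]
          exact Real.hasDerivAt_exp t
        · simp only [fQ, thr, Sum.elim_inr, Function.update_of_ne (Ne.symm h), if_neg h, map_zero]
          exact hasDerivAt_const _ _
    have h3 := hp.mul h2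
    have h4 : (fun t => fQ (p * X j) (Function.update x i t)) =
        (fun t => fQ p (Function.update x i t)) * (fun t => thr (Function.update x i t) j) := by
      funext w
      simp only [fQ, map_mul, aeval_X, Pi.mul_apply]
    rw [h4]
    refine h3.congr_deriv ?_
    simp only [fQ, Derivation.leibniz, smul_eq_mul, map_add, map_mul, aeval_X]
    ring

lemma continuous_fQ {n : ℕ} (Q : MvPolynomial (Vars n) ℤ) : Continuous (fQ Q) := by
  have h1 : Continuous (thr (n := n)) := by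
    refine continuous_pi fun j => ?_
    rcases j with k | k
    · exact continuous_apply k
    · exact Real.continuous_exp.comp (continuous_apply k)
  have h2 : fQ Q = fun x => ∑ s ∈ Q.support, ((coeff s Q : ℤ) : ℝ) * ∏ j, thr x j ^ s j := by
    funext x
    rw [fQ, MvPolynomial.aeval_def, MvPolynomial.eval₂_eq']
    rfl
  rw [h2]
  refine continuous_finsetSum _ fun s _ => continuous_const.mul ?_
  refine continuous_finsetProd _ fun j _ => ?_
  exact ((continuous_apply j).comp h1).pow _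

lemma norm_thc_le {n : ℕ} {R : ℝ} {x : Fin n → ℝ} (hx : ∀ i, |x i| ≤ R) (j : Vars n) :
    ‖thc x j‖ ≤ Real.exp R := by
  rw [thc, Complex.norm_real, Real.norm_eq_abs]
  rcases j with k | k
  · simp only [thr, Sum.elim_inl]
    refine (hx k).trans ?_
    have := Real.add_one_le_exp R
    linarith
  · simp only [thr, Sum.elim_inr]
    rw [abs_of_pos (Real.exp_pos _)]
    exact Real.exp_le_exp.mpr ((le_abs_self _).trans (hx k))

lemma abs_fQ_le {n δ T : ℕ} {R : ℝ} (hR : 0 ≤ R) {Q : MvPolynomial (Vars n) ℤ}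
    (h : InBox (δ + 1) T Q) {x : Fin n → ℝ} (hx : ∀ i, |x i| ≤ R) :
    |fQ Q x| ≤ ((δ + 1) ^ (2 * n) * T : ℝ) * Real.exp (2 * n * R * δ) := by
  rw [← norm_aeval_thc]
  refine (norm_aeval_le h (thc x)).trans ?_
  refine mul_le_mul_of_nonneg_left ?_ (by positivity)
  have h1 : ∀ j ∈ (Finset.univ : Finset (Vars n)), max 1 ‖thc x j‖ ^ δ ≤ Real.exp (R * δ) := by
    intro j _
    have h2 : max 1 ‖thc x j‖ ≤ Real.exp R :=
      max_le (Real.one_le_exp hR) (norm_thc_le hx j)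
    calc max 1 ‖thc x j‖ ^ δ ≤ (Real.exp R) ^ δ := pow_le_pow_left₀ (by positivity) h2 _
      _ = Real.exp (R * δ) := by rw [← Real.exp_nat_mul]; congr 1; ring
  refine (Finset.prod_le_prod (fun j _ => by positivity) h1).trans (le_of_eq ?_)
  rw [Finset.prod_const, Finset.card_univ, Fintype.card_sum, Fintype.card_fin, ← Real.exp_nat_mul]
  congr 1
  push_cast; ring

lemma norm_pow_sub_pow_le {y z : ℂ} {ρ ε : ℝ} (hρ : 1 ≤ ρ) (hy : ‖y‖ ≤ ρ) (hz : ‖z‖ ≤ ρ)
    (hyz : ‖y - z‖ ≤ ε) (s : ℕ) : ‖y ^ s - z ^ s‖ ≤ s * ρ ^ s * ε := by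
  have hε : 0 ≤ ε := (norm_nonneg _).trans hyz
  induction s with
  | zero => simp
  | succ s ih =>
    have h1 : y ^ (s + 1) - z ^ (s + 1) = y ^ s * (y - z) + (y ^ s - z ^ s) * z := by ring
    rw [h1]
    refine (norm_add_le _ _).trans ?_
    rw [norm_mul, norm_mul, norm_pow]
    have h2 : ‖y‖ ^ s * ‖y - z‖ ≤ ρ ^ (s + 1) * ε := by
      refine mul_le_mul ?_ hyz (norm_nonneg _) (by positivity)
      calc ‖y‖ ^ s ≤ ρ ^ s := pow_le_pow_left₀ (norm_nonneg _) hy _
        _ ≤ ρ ^ (s + 1) := pow_le_pow_right₀ hρ (Nat.le_succ _)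
    have h3 : ‖y ^ s - z ^ s‖ * ‖z‖ ≤ (s * ρ ^ s * ε) * ρ :=
      mul_le_mul ih hz (norm_nonneg _) (by positivity)
    refine (add_le_add h2 h3).trans (le_of_eq ?_)
    push_cast; ring

lemma norm_prod_pow_sub_le {κ : Type*} {y z : κ → ℂ} {ρ ε : ℝ} (hρ : 1 ≤ ρ)
    (hy : ∀ j, ‖y j‖ ≤ ρ) (hz : ∀ j, ‖z j‖ ≤ ρ)
    (hyz : ∀ j, ‖y j - z j‖ ≤ ε) (hε : 0 ≤ ε) (s : κ → ℕ) (S : Finset κ) :
    ‖∏ j ∈ S, y j ^ s j - ∏ j ∈ S, z j ^ s j‖ ≤ (∑ j ∈ S, s j : ℕ) * ρ ^ (∑ j ∈ S, s j) * ε := by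
  classical
  induction S using Finset.induction_on with
  | empty => simp
  | insert a S ha ih =>
    rw [Finset.prod_insert ha, Finset.prod_insert ha, Finset.sum_insert ha]
    have h1 : y a ^ s a * ∏ j ∈ S, y j ^ s j - z a ^ s a * ∏ j ∈ S, z j ^ s j =
        (y a ^ s a - z a ^ s a) * ∏ j ∈ S, y j ^ s j +
        z a ^ s a * (∏ j ∈ S, y j ^ s j - ∏ j ∈ S, z j ^ s j) := by ring
    rw [h1]
    refine (norm_add_le _ _).trans ?_
    rw [norm_mul, norm_mul, norm_pow (z a)]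
    have h2 : ‖∏ j ∈ S, y j ^ s j‖ ≤ ρ ^ (∑ j ∈ S, s j) := by
      rw [norm_prod, ← Finset.prod_pow_eq_pow_sum]
      refine Finset.prod_le_prod (fun _ _ => norm_nonneg _) fun j _ => ?_
      rw [norm_pow]
      exact pow_le_pow_left₀ (norm_nonneg _) (hy j) _
    have h3 : ‖z a‖ ^ s a ≤ ρ ^ s a := pow_le_pow_left₀ (norm_nonneg _) (hz a) _
    have h4 := norm_pow_sub_pow_le hρ (hy a) (hz a) (hyz a) (s a)
    have h5 : ‖y a ^ s a - z a ^ s a‖ * ‖∏ j ∈ S, y j ^ s j‖ ≤
        (s a * ρ ^ s a * ε) * ρ ^ (∑ j ∈ S, s j) :=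
      mul_le_mul h4 h2 (norm_nonneg _) (by positivity)
    have h6 : ‖z a‖ ^ s a * ‖∏ j ∈ S, y j ^ s j - ∏ j ∈ S, z j ^ s j‖ ≤
        ρ ^ s a * ((∑ j ∈ S, s j : ℕ) * ρ ^ (∑ j ∈ S, s j) * ε) :=
      mul_le_mul h3 ih (norm_nonneg _) (by positivity)
    refine (add_le_add h5 h6).trans (le_of_eq ?_)
    rw [pow_add]; push_cast; ring

lemma norm_aeval_sub_le {n δ T : ℕ} {Q : MvPolynomial (Vars n) ℤ} (h : InBox (δ + 1) T Q)
    {y z : Vars n → ℂ} {ρ ε : ℝ} (hρ : 1 ≤ ρ) (hy : ∀ j, ‖y j‖ ≤ ρ) (hz : ∀ j, ‖z j‖ ≤ ρ)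
    (hyz : ∀ j, ‖y j - z j‖ ≤ ε) (hε : 0 ≤ ε) :
    ‖aeval y Q - aeval z Q‖ ≤
      ((δ + 1) ^ (2 * n) * T : ℝ) * ((2 * n * δ) * ρ ^ (2 * n * δ) * ε) := by
  have h1 : ∀ y : Vars n → ℂ,
      aeval y Q = ∑ s ∈ Q.support, ((coeff s Q : ℤ) : ℂ) * ∏ j, y j ^ s j := by
    intro y
    rw [MvPolynomial.aeval_def, MvPolynomial.eval₂_eq']
    rfl
  rw [h1, h1, ← Finset.sum_sub_distrib]
  refine (norm_sum_le _ _).trans ?_
  have h2 : ∀ s ∈ Q.support, ‖((coeff s Q : ℤ) : ℂ) * ∏ j, y j ^ s j -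
      ((coeff s Q : ℤ) : ℂ) * ∏ j, z j ^ s j‖ ≤ T * ((2 * n * δ) * ρ ^ (2 * n * δ) * ε) := by
    intro s hs
    rw [← mul_sub, norm_mul]
    refine mul_le_mul ?_ ?_ (norm_nonneg _) (by positivity)
    · rw [Complex.norm_intCast]
      exact_mod_cast h.2 s
    · refine (norm_prod_pow_sub_le hρ hy hz hyz hε s Finset.univ).trans ?_
      have h3 : ∑ j, s j ≤ 2 * n * δ := by
        calc ∑ j, s j ≤ ∑ j : Vars n, δ := by
              refine Finset.sum_le_sum fun j _ => ?_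
              have := h.1 s (by rwa [mem_support_iff] at hs) j
              omega
          _ = 2 * n * δ := by
              rw [Finset.sum_const, Finset.card_univ, Fintype.card_sum, Fintype.card_fin,
                smul_eq_mul]; ring
      refine mul_le_mul_of_nonneg_right ?_ hε
      refine mul_le_mul ?_ (pow_le_pow_right₀ hρ h3) (by positivity) (by positivity)
      exact_mod_cast h3
  refine (Finset.sum_le_sum h2).trans ?_
  rw [Finset.sum_const, nsmul_eq_mul, ← mul_assoc]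
  refine mul_le_mul_of_nonneg_right ?_ (by positivity)
  refine mul_le_mul_of_nonneg_right ?_ (by positivity)
  exact_mod_cast card_support_le h

end Pool.Agent.H334R2
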