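import Mathlib
import Pool.Agent.H334R2.RealFun
import Pool.Agent.H334R2.Measure

namespace Pool.Agent.H334R2

open MvPolynomial MeasureTheory Set

/-- the set of points in the cube at which some polynomial in the box is small while one of its
derivatives is not small. -/
def badSet (n δ T : ℕ) (R ε η : ℝ) : Set (Fin n → ℝ) :=
  {x | (∀ j, |x j| ≤ R) ∧ ∃ (Q : MvPolynomial (Vars n) ℤ) (i : Fin n), InBox (δ + 1) T Q ∧
    InBox (δ + 1) T (D i (D i Q)) ∧ |fQ Q x| ≤ ε ∧ η ≤ |fQ (D i Q) x|}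

lemma volume_piece {m δ T : ℕ} {R ε η M2 : ℝ} (hR : 0 < R) (hM2 : 0 < M2) (hη : 0 < η)
    (hε : 0 ≤ ε) (hM2' : ((δ + 1) ^ (2 * (m + 1)) * T : ℝ) * Real.exp (2 * ((m + 1 : ℕ) : ℝ) * R * δ) ≤ M2)
    (Q : MvPolynomial (Vars (m + 1)) ℤ) (i : Fin (m + 1))
    (hQ : InBox (δ + 1) T (D i (D i Q))) :
    volume {x : Fin (m + 1) → ℝ | (∀ j, |x j| ≤ R) ∧ |fQ Q x| ≤ ε ∧ η ≤ |fQ (D i Q) x|} ≤
      ENNReal.ofReal ((4 * R * M2 / η + 1) * (8 * ε / η)) * ENNReal.ofReal (2 * R) ^ m := by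
  have hmeas : MeasurableSet
      {x : Fin (m + 1) → ℝ | (∀ j, |x j| ≤ R) ∧ |fQ Q x| ≤ ε ∧ η ≤ |fQ (D i Q) x|} := by
    have h1 : {x : Fin (m + 1) → ℝ | (∀ j, |x j| ≤ R) ∧ |fQ Q x| ≤ ε ∧ η ≤ |fQ (D i Q) x|} =
        (⋂ j, {x : Fin (m + 1) → ℝ | |x j| ≤ R}) ∩ ({x | |fQ Q x| ≤ ε} ∩
          {x | η ≤ |fQ (D i Q) x|}) := by
      ext x; simp
    rw [h1]
    refine MeasurableSet.inter (MeasurableSet.iInter fun j => ?_) (MeasurableSet.inter ?_ ?_)
    · exact measurableSet_le ((continuous_apply j).abs).measurable measurable_const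
    · exact measurableSet_le ((continuous_fQ Q).abs).measurable measurable_const
    · exact measurableSet_le measurable_const ((continuous_fQ (D i Q)).abs).measurable
  refine volume_le_of_slices i _ hmeas hR (fun x hx => hx.1) _ ?_
  intro x
  rcases Set.eq_empty_or_nonempty {t | Function.update x i t ∈ {x : Fin (m + 1) → ℝ |
    (∀ j, |x j| ≤ R) ∧ |fQ Q x| ≤ ε ∧ η ≤ |fQ (D i Q) x|}} with hemp | ⟨t0, ht0⟩
  · rw [hemp]; simp
  · have hx : ∀ j, j ≠ i → |x j| ≤ R := by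
      intro j hj
      have := ht0.1 j
      rwa [Function.update_of_ne hj] at this
    have hbox : ∀ t ∈ Icc (-R) R, ∀ j, |Function.update x i t j| ≤ R := by
      intro t ht j
      by_cases hj : j = i
      · subst hj
        rw [Function.update_self]
        exact abs_le.mpr ht
      · rw [Function.update_of_ne hj]; exact hx j hj
    refine (measure_mono ?_).trans (volume_small_set (fun t => hasDerivAt_fQ x i Q t)
      (fun t => hasDerivAt_fQ x i (D i Q) t) hR hM2 hη hε ?_)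
    · intro t ht
      refine ⟨?_, ht.2.1, ht.2.2⟩
      have := ht.1 i
      rw [Function.update_self] at this
      exact abs_le.mp this
    · intro t ht
      exact (abs_fQ_le hR.le hQ (hbox t ht)).trans hM2'

lemma volume_badSet_le {m δ T : ℕ} {R ε η M2 : ℝ} (hR : 0 < R) (hM2 : 0 < M2) (hη : 0 < η)
    (hε : 0 ≤ ε) (hM2' : ((δ + 1) ^ (2 * (m + 1)) * T : ℝ) * Real.exp (2 * ((m + 1 : ℕ) : ℝ) * R * δ) ≤ M2) :
    volume (badSet (m + 1) δ T R ε η) ≤
      (((2 * T + 1) ^ ((δ + 1) ^ (2 * (m + 1))) * (m + 1) : ℕ) : ENNReal) *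
      (ENNReal.ofReal ((4 * R * M2 / η + 1) * (8 * ε / η)) * ENNReal.ofReal (2 * R) ^ m) := by
  classical
  set b := ENNReal.ofReal ((4 * R * M2 / η + 1) * (8 * ε / η)) * ENNReal.ofReal (2 * R) ^ m with hb
  let I := ((Vars (m + 1) → Fin (δ + 1)) → Fin (2 * T + 1)) × Fin (m + 1)
  let q : I → MvPolynomial (Vars (m + 1)) ℤ := fun p => toPoly (fun s => ((p.1 s : ℕ) : ℤ) - T)
  let piece : I → Set (Fin (m + 1) → ℝ) := fun p =>
    if InBox (δ + 1) T (D p.2 (D p.2 (q p))) then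
      {x | (∀ j, |x j| ≤ R) ∧ |fQ (q p) x| ≤ ε ∧ η ≤ |fQ (D p.2 (q p)) x|} else ∅
  have hsub : badSet (m + 1) δ T R ε η ⊆ ⋃ p : I, piece p := by
    rintro x ⟨hx, Q, i, hQ, hDD, h1, h2⟩
    rw [mem_iUnion]
    refine ⟨⟨fun s => ⟨(coeff (expo s) Q + T).toNat, ?_⟩, i⟩, ?_⟩
    · have := abs_le.mp (hQ.2 (expo s))
      omega
    · have hq : q ⟨fun s => ⟨(coeff (expo s) Q + T).toNat, by
          have := abs_le.mp (hQ.2 (expo s))
          omega⟩, i⟩ = Q := by
        conv_rhs => rw [eq_toPoly hQ]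
        simp only [q]
        congr 1
        funext s
        have := abs_le.mp (hQ.2 (expo s))
        rw [Int.toNat_of_nonneg (by omega)]
        ring
      simp only [piece]
      rw [hq, if_pos hDD]
      exact ⟨hx, h1, h2⟩
  have hpiece : ∀ p ∈ (Finset.univ : Finset I), volume (piece p) ≤ b := by
    intro p _
    by_cases h : InBox (δ + 1) T (D p.2 (D p.2 (q p)))
    · simp only [piece]
      rw [if_pos h]
      exact volume_piece hR hM2 hη hε hM2' (q p) p.2 h
    · simp only [piece]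
      rw [if_neg h]; simp
  have hcard : Fintype.card I = (2 * T + 1) ^ ((δ + 1) ^ (2 * (m + 1))) * (m + 1) := by
    simp only [I, Fintype.card_prod, Fintype.card_fun, Fintype.card_fin, Fintype.card_sum]
    rw [two_mul (m + 1)]
  calc volume (badSet (m + 1) δ T R ε η) ≤ volume (⋃ p ∈ (Finset.univ : Finset I), piece p) := by
        refine measure_mono ?_
        simpa using hsub
    _ ≤ ∑ p ∈ (Finset.univ : Finset I), volume (piece p) := measure_biUnion_finset_le _ _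
    _ ≤ ∑ p ∈ (Finset.univ : Finset I), b := Finset.sum_le_sum hpiece
    _ = _ := by rw [Finset.sum_const, Finset.card_univ, hcard, nsmul_eq_mul]

end Pool.Agent.H334R2
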