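import Mathlib
import Pool.Agent.H334R2.BadMeasure

namespace Pool.Agent.H334R2

open MvPolynomial MeasureTheory Set

noncomputable def deltaS (n d : ℕ) : ℕ := ⌈((4 * d : ℝ)) ^ ((1 : ℝ) / (2 * n))⌉₊

section
variable {n d : ℕ} (hn : 1 ≤ n) (hd : 1 ≤ d)
include hn hd

lemma four_mul_le : 4 * d ≤ (deltaS n d + 1) ^ (2 * n) := by
  have hn0 : (n : ℝ) ≠ 0 := by positivity
  have h1 : ((4 * d : ℝ)) ^ ((1 : ℝ) / (2 * n)) ≤ deltaS n d := Nat.le_ceil _
  have h2 : (4 * d : ℝ) ≤ ((deltaS n d : ℝ) + 1) ^ (2 * n) := by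
    calc (4 * d : ℝ) = (((4 * d : ℝ)) ^ ((1 : ℝ) / (2 * n))) ^ (2 * n) := by
          rw [← Real.rpow_natCast, ← Real.rpow_mul (by positivity)]
          push_cast
          rw [one_div, inv_mul_cancel₀ (by positivity), Real.rpow_one]
      _ ≤ ((deltaS n d : ℝ) + 1) ^ (2 * n) := by
          refine pow_le_pow_left₀ (by positivity) ?_ _
          linarith
  exact_mod_cast h2

lemma one_le_deltaS : 1 ≤ deltaS n d := by
  rw [deltaS, Nat.one_le_ceil_iff]
  positivity

lemma deltaS_le : (deltaS n d : ℝ) ≤ 3 * (d : ℝ) ^ ((1 : ℝ) / (2 * n)) := by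
  have hd1 : (1 : ℝ) ≤ d := by exact_mod_cast hd
  have hn1 : (1 : ℝ) ≤ n := by exact_mod_cast hn
  have h1 : (deltaS n d : ℝ) < ((4 * d : ℝ)) ^ ((1 : ℝ) / (2 * n)) + 1 :=
    Nat.ceil_lt_add_one (by positivity)
  have h2 : ((4 * d : ℝ)) ^ ((1 : ℝ) / (2 * n)) ≤ 2 * (d : ℝ) ^ ((1 : ℝ) / (2 * n)) := by
    rw [Real.mul_rpow (by norm_num) (by positivity)]
    refine mul_le_mul_of_nonneg_right ?_ (by positivity)
    calc (4 : ℝ) ^ ((1 : ℝ) / (2 * n)) ≤ (4 : ℝ) ^ ((1 : ℝ) / 2) := by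
          refine Real.rpow_le_rpow_of_exponent_le (by norm_num) ?_
          exact one_div_le_one_div_of_le (by norm_num) (by linarith)
      _ = 2 := by
          rw [show (4 : ℝ) = 2 ^ (2 : ℝ) by norm_num, ← Real.rpow_mul (by norm_num)]
          norm_num
  have h3 : 1 ≤ (d : ℝ) ^ ((1 : ℝ) / (2 * n)) := Real.one_le_rpow hd1 (by positivity)
  linarith

lemma deltaS_pow_le : ((deltaS n d + 1 : ℕ) : ℝ) ^ (2 * n) ≤ 16 ^ n * d := by
  have hd1 : (1 : ℝ) ≤ d := by exact_mod_cast hd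
  have h1 := deltaS_le hn hd
  have h3 : 1 ≤ (d : ℝ) ^ ((1 : ℝ) / (2 * n)) := Real.one_le_rpow hd1 (by positivity)
  calc ((deltaS n d + 1 : ℕ) : ℝ) ^ (2 * n) ≤ (4 * (d : ℝ) ^ ((1 : ℝ) / (2 * n))) ^ (2 * n) := by
        refine pow_le_pow_left₀ (by positivity) ?_ _
        push_cast; linarith
    _ = 16 ^ n * d := by
        rw [mul_pow, pow_mul (4 : ℝ) 2 n, ← Real.rpow_natCast ((d : ℝ) ^ ((1 : ℝ) / (2 * n))),
          ← Real.rpow_mul (by positivity)]
        push_cast
        rw [one_div, inv_mul_cancel₀ (by positivity), Real.rpow_one]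
        norm_num

end

lemma le_exp_self (x : ℝ) : x ≤ Real.exp x := by
  have := Real.add_one_le_exp x; linarith

lemma three_le_exp_two : (3 : ℝ) ≤ Real.exp 2 := by
  have h1 := Real.add_one_le_exp (2 : ℝ)
  linarith

lemma sixteen_le_exp : (16 : ℝ) ≤ Real.exp 3 := by
  have h1 : (2.7 : ℝ) < Real.exp 1 := by
    have := Real.exp_one_gt_d9; linarith
  have h2 : Real.exp 3 = Real.exp 1 ^ 3 := by
    rw [← Real.exp_nat_mul]; norm_num
  rw [h2]
  calc (16 : ℝ) ≤ 2.7 ^ 3 := by norm_num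
    _ ≤ Real.exp 1 ^ 3 := pow_le_pow_left₀ (by norm_num) h1.le _

/-- the parameter `c1`. -/
noncomputable def cOne (m : ℕ) (C R : ℝ) : ℝ :=
  16 ^ (m + 1) * (2 + C) + 3 * (m + 1) + 4 * R * (m + 1) + 8 * R + 3 * C + 5

/-- coefficient bound. -/
noncomputable def tT (C : ℝ) (M d δ : ℕ) : ℕ := ⌊Real.exp (C * ((M : ℝ) / d) * δ)⌋₊

lemma volume_bad_le (m : ℕ) {C R : ℝ} (hC : 0 < C) (hR : 1 ≤ R) {d M : ℕ} (hd : 1 ≤ d)
    (hdM : d ≤ M) :
    volume (badSet (m + 1) (deltaS (m + 1) d) (tT C M d (deltaS (m + 1) d)) R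
      (Real.exp (-(cOne m C R * (M * deltaS (m + 1) d))))
      (Real.exp (-(C * (M * deltaS (m + 1) d))) / 2)) ≤ ENNReal.ofReal (Real.exp (-(2 * M))) := by
  set δ := deltaS (m + 1) d with hδ
  set T := tT C M d δ with hT
  have hδ1 : 1 ≤ δ := one_le_deltaS (by omega) hd
  have hδR : (1 : ℝ) ≤ δ := by exact_mod_cast hδ1
  have hdR : (1 : ℝ) ≤ d := by exact_mod_cast hd
  have hdMR : (d : ℝ) ≤ M := by exact_mod_cast hdM
  have hMR : (1 : ℝ) ≤ M := by linarith
  set A : ℝ := M * δ with hA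
  have hA1 : 1 ≤ A := by rw [hA]; nlinarith
  have hMA : (M : ℝ) ≤ A := by rw [hA]; nlinarith
  have hδA : (δ : ℝ) ≤ A := by rw [hA]; nlinarith
  have hdA : (d : ℝ) ≤ A := by linarith
  have hR0 : 0 < R := by linarith
  set e1 : ℝ := C * ((M : ℝ) / d) * δ with he1
  have hMd : 1 ≤ (M : ℝ) / d := by rw [one_le_div (by linarith)]; exact hdMR
  have he10 : 0 ≤ e1 := by positivity
  have hTle : (T : ℝ) ≤ Real.exp e1 := Nat.floor_le (Real.exp_pos _).le
  have he1A : e1 ≤ C * A := by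
    rw [he1, hA]
    have : (M : ℝ) / d ≤ M := div_le_self (by linarith) hdR
    calc C * ((M : ℝ) / d) * δ ≤ C * M * δ := by
          refine mul_le_mul_of_nonneg_right (mul_le_mul_of_nonneg_left this hC.le) (by linarith)
      _ = C * (M * δ) := by ring
  set N0 : ℕ := (δ + 1) ^ (2 * (m + 1)) with hN0
  have hN0le : (N0 : ℝ) ≤ 16 ^ (m + 1) * d := by
    have := deltaS_pow_le (n := m + 1) (d := d) (by omega) hd
    rw [hN0]; push_cast at this ⊢; exact this
  have hN0exp : (N0 : ℝ) ≤ Real.exp (2 * (m + 1) * δ) := by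
    rw [hN0]
    push_cast
    calc ((δ : ℝ) + 1) ^ (2 * (m + 1)) ≤ (Real.exp δ) ^ (2 * (m + 1)) :=
          pow_le_pow_left₀ (by positivity) (Real.add_one_le_exp _) _
      _ = Real.exp (2 * (m + 1) * δ) := by rw [← Real.exp_nat_mul]; push_cast; ring_nf
  set M2 : ℝ := Real.exp ((2 * (m + 1) + C + 2 * (m + 1) * R) * A) with hM2
  set η : ℝ := Real.exp (-(C * A)) / 2 with hη
  set ε : ℝ := Real.exp (-(cOne m C R * A)) with hε
  have hηpos : 0 < η := by positivity
  have hM2' : ((δ + 1) ^ (2 * (m + 1)) * T : ℝ) * Real.exp (2 * ((m + 1 : ℕ) : ℝ) * R * δ) ≤ M2 := by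
    have h1 : ((δ : ℝ) + 1) ^ (2 * (m + 1)) ≤ Real.exp (2 * (m + 1) * δ) := by
      have := hN0exp; rw [hN0] at this; push_cast at this; exact this
    calc ((δ + 1) ^ (2 * (m + 1)) * T : ℝ) * Real.exp (2 * ((m + 1 : ℕ) : ℝ) * R * δ)
        ≤ (Real.exp (2 * (m + 1) * δ) * Real.exp e1) * Real.exp (2 * ((m + 1 : ℕ) : ℝ) * R * δ) := by
          refine mul_le_mul_of_nonneg_right ?_ (Real.exp_pos _).le
          exact mul_le_mul h1 hTle (by positivity) (by positivity)
      _ = Real.exp (2 * (m + 1) * δ + e1 + 2 * ((m + 1 : ℕ) : ℝ) * R * δ) := by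
          rw [Real.exp_add, Real.exp_add]
      _ ≤ M2 := by
          rw [hM2]
          refine Real.exp_le_exp.mpr ?_
          push_cast
          have h2 : 2 * ((m : ℝ) + 1) * δ ≤ 2 * (m + 1) * A :=
            mul_le_mul_of_nonneg_left hδA (by positivity)
          have h3 : 2 * ((m : ℝ) + 1) * R * δ ≤ 2 * (m + 1) * R * A :=
            mul_le_mul_of_nonneg_left hδA (by positivity)
          nlinarith
  refine (volume_badSet_le (m := m) (δ := δ) (T := T) hR0 (Real.exp_pos _ : 0 < M2) hηpos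
    (Real.exp_pos _).le hM2').trans ?_
  rw [← ENNReal.ofReal_pow (by positivity), ← ENNReal.ofReal_mul (by positivity),
    ← ENNReal.ofReal_natCast, ← ENNReal.ofReal_mul (by positivity)]
  refine ENNReal.ofReal_le_ofReal ?_
  -- now a real inequality
  have hb1 : (((2 * T + 1) ^ N0 * (m + 1) : ℕ) : ℝ) ≤
      Real.exp (16 ^ (m + 1) * (2 + C) * A) * Real.exp ((m + 1) * A) := by
    push_cast
    refine mul_le_mul ?_ ?_ (by positivity) (by positivity)
    · have h1 : (2 * (T : ℝ) + 1) ≤ Real.exp (2 + e1) := by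
        have h2 : 1 ≤ Real.exp e1 := Real.one_le_exp he10
        calc (2 * (T : ℝ) + 1) ≤ 3 * Real.exp e1 := by linarith
          _ ≤ Real.exp 2 * Real.exp e1 :=
            mul_le_mul_of_nonneg_right three_le_exp_two (Real.exp_pos _).le
          _ = Real.exp (2 + e1) := by rw [Real.exp_add]
      calc (2 * (T : ℝ) + 1) ^ N0 ≤ (Real.exp (2 + e1)) ^ N0 :=
            pow_le_pow_left₀ (by positivity) h1 _
        _ = Real.exp (N0 * (2 + e1)) := by rw [← Real.exp_nat_mul]
        _ ≤ Real.exp (16 ^ (m + 1) * (2 + C) * A) := by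
            refine Real.exp_le_exp.mpr ?_
            calc (N0 : ℝ) * (2 + e1) ≤ (16 ^ (m + 1) * d) * (2 + e1) :=
                  mul_le_mul_of_nonneg_right hN0le (by positivity)
              _ = 16 ^ (m + 1) * (2 * d + d * e1) := by ring
              _ = 16 ^ (m + 1) * (2 * d + C * A) := by
                  congr 2
                  rw [he1, hA]; field_simp
              _ ≤ 16 ^ (m + 1) * (2 * A + C * A) := by
                  refine mul_le_mul_of_nonneg_left ?_ (by positivity)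
                  linarith
              _ = 16 ^ (m + 1) * (2 + C) * A := by ring
    · refine (le_exp_self _).trans (Real.exp_le_exp.mpr ?_)
      have : (0 : ℝ) ≤ m := by positivity
      nlinarith
  have hb2 : (4 * R * M2 / η + 1) ≤
      Real.exp (8 * R * A) * Real.exp ((2 * (m + 1) + 2 * C + 2 * (m + 1) * R) * A) := by
    have h1 : 4 * R * M2 / η = 8 * R * Real.exp ((2 * (m + 1) + 2 * C + 2 * (m + 1) * R) * A) := by
      rw [hη, hM2, show (2 * ((m : ℝ) + 1) + 2 * C + 2 * (m + 1) * R) * A =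
        (2 * (m + 1) + C + 2 * (m + 1) * R) * A + C * A by ring, Real.exp_add, Real.exp_neg]
      field_simp
      ring
    have h2 : 1 ≤ Real.exp ((2 * ((m : ℝ) + 1) + 2 * C + 2 * (m + 1) * R) * A) :=
      Real.one_le_exp (by positivity)
    rw [h1]
    calc 8 * R * Real.exp ((2 * ((m : ℝ) + 1) + 2 * C + 2 * (m + 1) * R) * A) + 1
        ≤ (8 * R + 1) * Real.exp ((2 * ((m : ℝ) + 1) + 2 * C + 2 * (m + 1) * R) * A) := by linarith
      _ ≤ Real.exp (8 * R * A) * Real.exp ((2 * ((m : ℝ) + 1) + 2 * C + 2 * (m + 1) * R) * A) := by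
          refine mul_le_mul_of_nonneg_right ?_ (Real.exp_pos _).le
          refine (Real.add_one_le_exp _).trans (Real.exp_le_exp.mpr ?_)
          nlinarith
  have hb3 : 8 * ε / η ≤ Real.exp (3 * A) * (Real.exp (C * A) * Real.exp (-(cOne m C R * A))) := by
    have h1 : 8 * ε / η = 16 * (Real.exp (C * A) * Real.exp (-(cOne m C R * A))) := by
      rw [hη, hε, Real.exp_neg (C * A)]
      field_simp
      ring
    rw [h1]
    refine mul_le_mul_of_nonneg_right ?_ (by positivity)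
    refine sixteen_le_exp.trans (Real.exp_le_exp.mpr ?_)
    linarith
  have hb4 : (2 * R) ^ m ≤ Real.exp (2 * R * (m + 1) * A) := by
    calc (2 * R) ^ m ≤ (Real.exp (2 * R)) ^ m := pow_le_pow_left₀ (by positivity) (le_exp_self _) _
      _ = Real.exp (m * (2 * R)) := by rw [← Real.exp_nat_mul]
      _ ≤ Real.exp (2 * R * (m + 1) * A) := by
          refine Real.exp_le_exp.mpr ?_
          have h0 : (0 : ℝ) ≤ m := by positivity
          have h1 : (m : ℝ) * (2 * R) ≤ (2 * R * (m + 1)) * 1 := by nlinarith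
          exact h1.trans (mul_le_mul_of_nonneg_left hA1 (by positivity))
  calc (((2 * T + 1) ^ N0 * (m + 1) : ℕ) : ℝ) *
        ((4 * R * M2 / η + 1) * (8 * ε / η) * (2 * R) ^ m)
      ≤ (Real.exp (16 ^ (m + 1) * (2 + C) * A) * Real.exp ((m + 1) * A)) *
        ((Real.exp (8 * R * A) * Real.exp ((2 * (m + 1) + 2 * C + 2 * (m + 1) * R) * A)) *
        (Real.exp (3 * A) * (Real.exp (C * A) * Real.exp (-(cOne m C R * A)))) *
        Real.exp (2 * R * (m + 1) * A)) := by
        refine mul_le_mul hb1 ?_ (by positivity) (by positivity)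
        refine mul_le_mul ?_ hb4 (by positivity) (by positivity)
        exact mul_le_mul hb2 hb3 (by positivity) (by positivity)
    _ = Real.exp ((16 ^ (m + 1) * (2 + C) * A + (m + 1) * A) +
        ((8 * R * A + (2 * (m + 1) + 2 * C + 2 * (m + 1) * R) * A) +
        (3 * A + (C * A + -(cOne m C R * A))) + 2 * R * (m + 1) * A)) := by
        simp only [Real.exp_add]
    _ ≤ Real.exp (-(2 * M)) := by
        refine Real.exp_le_exp.mpr ?_
        have h1 : (16 ^ (m + 1) * (2 + C) * A + (m + 1) * A) +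
          ((8 * R * A + (2 * (m + 1) + 2 * C + 2 * (m + 1) * R) * A) +
          (3 * A + (C * A + -(cOne m C R * A))) + 2 * R * (m + 1) * A) = -(2 * A) := by
          rw [cOne]; ring
        rw [h1]
        linarith

end Pool.Agent.H334R2
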