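import Mathlib
import Pool.Agent.H334R2.Numeric

namespace Pool.Agent.H334R2

open MvPolynomial MeasureTheory Set

/-- the bad set attached to a degree `d = p.1 + 1` and a bound `M = p.1 + 1 + p.2`. -/
noncomputable def badAt (m : ℕ) (C : ℝ) (R : ℕ) (p : ℕ × ℕ) : Set (Fin (m + 1) → ℝ) :=
  badSet (m + 1) (deltaS (m + 1) (p.1 + 1))
    (tT C (p.1 + 1 + p.2) (p.1 + 1) (deltaS (m + 1) (p.1 + 1))) (R + 1 : ℕ)
    (Real.exp (-(cOne m C (R + 1 : ℕ) * (((p.1 + 1 + p.2 : ℕ) : ℝ) * deltaS (m + 1) (p.1 + 1)))))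
    (Real.exp (-(C * (((p.1 + 1 + p.2 : ℕ) : ℝ) * deltaS (m + 1) (p.1 + 1)))) / 2)

lemma ae_finite (m : ℕ) {C : ℝ} (hC : 0 < C) :
    ∀ᵐ x : Fin (m + 1) → ℝ, ∀ R : ℕ, {p : ℕ × ℕ | x ∈ badAt m C R p}.Finite := by
  rw [ae_all_iff]
  intro R
  refine ae_finite_setOfPred_mem ?_
  have h1 : ∀ p : ℕ × ℕ, volume (badAt m C R p) ≤
      ENNReal.ofReal (Real.exp (-1)) ^ p.1 * ENNReal.ofReal (Real.exp (-1)) ^ p.2 := by
    intro p
    refine (volume_bad_le m hC (R := (R + 1 : ℕ)) (by push_cast; linarith [show (0 : ℝ) ≤ R by positivity])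
      (d := p.1 + 1) (M := p.1 + 1 + p.2) (by omega) (by omega)).trans ?_
    rw [← ENNReal.ofReal_pow (Real.exp_pos _).le, ← ENNReal.ofReal_pow (Real.exp_pos _).le,
      ← ENNReal.ofReal_mul (by positivity)]
    refine ENNReal.ofReal_le_ofReal ?_
    rw [← Real.exp_nat_mul, ← Real.exp_nat_mul, ← Real.exp_add]
    refine Real.exp_le_exp.mpr ?_
    push_cast
    have h2 : (0 : ℝ) ≤ p.1 := by positivity
    have h3 : (0 : ℝ) ≤ p.2 := by positivity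
    linarith
  refine ne_top_of_le_ne_top ?_ (ENNReal.tsum_le_tsum h1)
  rw [ENNReal.tsum_prod']
  simp only [ENNReal.tsum_mul_left, ENNReal.tsum_mul_right]
  have h2 : ENNReal.ofReal (Real.exp (-1)) < 1 := by
    rw [← ENNReal.ofReal_one]
    exact (ENNReal.ofReal_lt_ofReal_iff (by norm_num)).mpr
      (by rw [← Real.exp_zero]; exact Real.exp_lt_exp.mpr (by norm_num))
  have h3 : ∑' k : ℕ, ENNReal.ofReal (Real.exp (-1)) ^ k ≠ ⊤ := by
    rw [ENNReal.tsum_geometric]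
    exact ENNReal.inv_ne_top.mpr (tsub_pos_of_lt h2).ne'
  exact ENNReal.mul_ne_top h3 h3

end Pool.Agent.H334R2
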